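import Pool.Agent.Work.MP_b0b133_an.R5.Pos

/-!
# Pointwise inequality in the variable `s = sin g`
-/

set_option autoImplicit false
open Real Set

namespace Pool.Agent.ConeG.Star

lemma kz_nonneg {w : ℝ} (hw : 1 ≤ w) : 0 ≤ kz w := by
  have hw0 : 0 < w := by linarith
  have h1 := le_two_log hw
  have h2 : 0 ≤ 4 * (w - 1) / (w + 1) + kk w - 2 := by
    have e : 4 * (w - 1) / (w + 1) + kk w - 2
        = (2 * w ^ 3 - 71 / 20 * w ^ 2 + 41 / 20 * w - 2 / 5) / (w ^ 2 * (w + 1)) := by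
      unfold kk; field_simp; ring
    rw [e]
    refine div_nonneg ?_ (by positivity)
    obtain ⟨x, hx⟩ : ∃ x : ℝ, w = x + 1 := ⟨w - 1, by ring⟩
    have hx0 : 0 ≤ x := by linarith
    rw [hx]
    ring_nf
    positivity
  unfold kz
  linarith

lemma ka_nonneg {ε w : ℝ} (hε : 0 < ε) (hε1 : ε ≤ 2 / 5) (hw : 1 ≤ w) : 0 ≤ ka ε w := by
  have hM0 : 0 ≤ 2 * log w := mul_nonneg (by norm_num) (Real.log_nonneg hw)
  have hk0 := kk_nonneg hw
  have h1 := ka_lower hε (by linarith) hM0 hk0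
  have h2 := kz_nonneg hw
  unfold kz at h2
  refine le_trans ?_ h1
  rcases le_total w (11 / 5) with h | h
  · have h3 : 0 ≤ kk w - 1 := by linarith [one_le_kk hw h]
    positivity
  · have h3 := neg_large hε hε1 h
    have h4 : 0 ≤ ε * ((2 * log w) ^ 2 / 2 + (kk w - 1) * (2 * log w)
        + ε * ((kk w - 1) * (2 * log w) ^ 2 / 2)) := mul_nonneg hε.le (by linarith)
    nlinarith

/-- the coefficient of the certificate -/
noncomputable def kp (ν A K1 K2 b0 s : ℝ) : ℝ :=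
  (A + K1 * s ^ ν) / s ^ 2 - (ν + 1) - K2 * b0 * s ^ (2 * ν - 2)

lemma kp_eq {ν m s : ℝ} (hν : 0 < ν) (hm : 0 < m) (hs : 0 < s) :
    kp ν ((ν - 1) * m) (49 / 20 * m ^ (1 - ν / 2)) (2 / 5) (m ^ (1 - ν)) s
      = ka (1 / ν) ((m / s ^ 2) ^ (ν / 2)) ∧
    m ^ (1 - ν) * s ^ (2 * ν - 2) = be (1 / ν) ((m / s ^ 2) ^ (ν / 2)) := by
  have hX : 0 < m / s ^ 2 := by positivity
  obtain ⟨X, hXd⟩ : ∃ X : ℝ, X = m / s ^ 2 := ⟨_, rfl⟩
  rw [← hXd] at hX ⊢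
  have hs2 : ∀ p : ℝ, (s ^ 2) ^ p = s ^ (2 * p) := by
    intro p
    rw [← Real.rpow_natCast, ← Real.rpow_mul hs.le]
    norm_num
  have hXp : ∀ p : ℝ, X ^ p = m ^ p / s ^ (2 * p) := by
    intro p
    rw [hXd, Real.div_rpow hm.le (by positivity), hs2]
  have hlog : 1 / ν * (2 * log (X ^ (ν / 2))) = log X := by
    rw [Real.log_rpow hX]; field_simp
  have hexp : exp (1 / ν * (2 * log (X ^ (ν / 2)))) = X := by rw [hlog, Real.exp_log hX]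
  have hw2 : (X ^ (ν / 2)) ^ 2 = X ^ ν := by
    rw [← Real.rpow_natCast, ← Real.rpow_mul hX.le]; congr 1; push_cast; ring
  have hbe : be (1 / ν) (X ^ (ν / 2)) = X ^ (1 - ν) := by
    unfold be
    rw [hexp, hw2, Real.rpow_sub hX, Real.rpow_one]; ring
  have hbe2 : X ^ (1 - ν) = m ^ (1 - ν) * s ^ (2 * ν - 2) := by
    rw [hXp, show 2 * (1 - ν) = -(2 * ν - 2) by ring, Real.rpow_neg hs.le]
    field_simp
  have hk1 : X * (49 / 20 / X ^ (ν / 2)) = 49 / 20 * m ^ (1 - ν / 2) * s ^ ν / s ^ 2 := by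
    have h1 : X * (49 / 20 / X ^ (ν / 2)) = 49 / 20 * X ^ (1 - ν / 2) := by
      rw [Real.rpow_sub hX, Real.rpow_one]; ring
    rw [h1, hXp, show 2 * (1 - ν / 2) = 2 - ν by ring, Real.rpow_sub hs]
    have h2 : s ^ (2 : ℝ) = s ^ 2 := by norm_cast
    rw [h2]
    have h3 : 0 < s ^ ν := Real.rpow_pos_of_pos hs ν
    field_simp
  refine ⟨?_, by rw [hbe, hbe2]⟩
  unfold kp ka kk
  rw [hexp, hw2, mul_sub, hk1]
  have h2 : X * (2 / 5 / X ^ ν) = 2 / 5 * (m ^ (1 - ν) * s ^ (2 * ν - 2)) := by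
    rw [← hbe2, Real.rpow_sub hX, Real.rpow_one]; ring
  rw [h2, hXd]
  field_simp
  ring

lemma one_le_w {ν m s : ℝ} (hν : 0 < ν) (hm : 1 ≤ m) (hs : 0 < s) (hs1 : s ≤ 1) :
    1 ≤ (m / s ^ 2) ^ (ν / 2) := by
  refine Real.one_le_rpow ?_ (by positivity)
  rw [le_div_iff₀ (by positivity)]
  nlinarith

/-- **The pointwise inequality**: `κ ≥ 0`. -/
theorem star_nonneg {ν m A K1 : ℝ} (hν : 5 / 2 ≤ ν) (hm : 1 ≤ m) (hA : (ν - 1) * m ≤ A)
    (hK : 49 / 20 * m ^ (1 - ν / 2) ≤ K1) (s : ℝ) (hs : 0 < s) (hs1 : s ≤ 1) :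
    0 ≤ kp ν A K1 (2 / 5) (m ^ (1 - ν)) s := by
  have hν0 : 0 < ν := by linarith
  have h1 := (kp_eq hν0 (show 0 < m by linarith) hs).1
  have h2 := ka_nonneg (ε := 1 / ν) (by positivity)
    (by rw [div_le_div_iff₀ hν0 (by norm_num)]; linarith) (one_le_w hν0 hm hs hs1)
  rw [← h1] at h2
  refine h2.trans ?_
  unfold kp
  have h3 : 0 < s ^ ν := Real.rpow_pos_of_pos hs ν
  have h4 : ((ν - 1) * m + 49 / 20 * m ^ (1 - ν / 2) * s ^ ν) / s ^ 2 ≤ (A + K1 * s ^ ν) / s ^ 2 :=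
    div_le_div_of_nonneg_right (add_le_add hA (mul_le_mul_of_nonneg_right hK h3.le))
      (by positivity)
  linarith

/-- **The pointwise inequality.** -/
theorem star_sin {ν m A K1 : ℝ} (hν : 5 / 2 ≤ ν) (hm : 1 ≤ m) (hA : (ν - 1) * m ≤ A)
    (hK : 49 / 20 * m ^ (1 - ν / 2) ≤ K1) (s : ℝ) (hs : 0 < s) (hs1 : s ≤ 1) (u : ℝ)
    (hu : 0 < u) :
    ν * (u * (u ^ (1 / ν) - 1)) ≤ (1 + kp ν A K1 (2 / 5) (m ^ (1 - ν)) s) * (u - 1)
      + m ^ (1 - ν) * s ^ (2 * ν - 2) * (u - 1) ^ 2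
      - kp ν A K1 (2 / 5) (m ^ (1 - ν)) s * Real.log u := by
  have hν0 : 0 < ν := by linarith
  obtain ⟨h1, h1'⟩ := kp_eq hν0 (show 0 < m by linarith) hs
  have h2 := star (ε := 1 / ν) (by positivity)
    (by rw [div_le_div_iff₀ hν0 (by norm_num)]; linarith) (one_le_w hν0 hm hs hs1) hu
  rw [← h1, ← h1'] at h2
  have h3 : 0 < s ^ ν := Real.rpow_pos_of_pos hs ν
  have h4 : ((ν - 1) * m + 49 / 20 * m ^ (1 - ν / 2) * s ^ ν) / s ^ 2 ≤ (A + K1 * s ^ ν) / s ^ 2 :=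
    div_le_div_of_nonneg_right (add_le_add hA (mul_le_mul_of_nonneg_right hK h3.le))
      (by positivity)
  have h5 : kp ν ((ν - 1) * m) (49 / 20 * m ^ (1 - ν / 2)) (2 / 5) (m ^ (1 - ν)) s
      ≤ kp ν A K1 (2 / 5) (m ^ (1 - ν)) s := by unfold kp; linarith
  have h6 := mul_nonneg (sub_nonneg.2 h5) (AA_nonneg hu)
  have h7 : ν * (u * (u ^ (1 / ν) - 1)) = u * ((exp (1 / ν * log u) - 1) / (1 / ν)) := by
    rw [Real.rpow_def_of_pos hu, mul_comm (log u) (1 / ν)]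
    field_simp
  rw [h7]
  refine h2.trans ?_
  unfold AA at h6
  linarith

end Pool.Agent.ConeG.Star
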