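import Pool.Agent.Work.MP_b0b133_an.R.Near
import Pool.Agent.Work.MP_b0b133_an.R5.Star

/-!
# The near certificate with the constants `49/20`, `2/5`
-/

set_option autoImplicit false
open Finset MeasureTheory
open scoped Real

namespace Pool.Agent.ConeRadial

open Pool.Agent.ConeG

/-- The integrated certificate, unconditional. -/
theorem near_star {ν : ℝ} (hν : 5 / 2 ≤ ν) {N : ℕ} (hN : 1 ≤ N) {a : ℕ → ℂ} (ha : a 0 = 1)
    {m A K1 : ℝ} (hm : 1 ≤ m) (hA : (ν - 1) * m ≤ A) (hK : 49 / 20 * m ^ (1 - ν / 2) ≤ K1) :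
    Pool.Agent.ConeG.Rad.V ν N a ≤ 1 + (1 / ν) * (
      (∑ l ∈ Ico 1 N, ‖a l‖ ^ 2 * (cst (2 * ν) * (A * J (2 * ν - 2) (fun g => Y ν l g ^ 2)
        + K1 * J (3 * ν - 2) (fun g => Y ν l g ^ 2)
        - (2 + 2 / 5) * m ^ (1 - ν) * J (4 * ν - 2) (fun g => Y ν l g ^ 2))))
      + m ^ (1 - ν) * (cst (2 * ν) * (((2 * π)⁻¹ * ∫ T in (0 : ℝ)..(2 * π), ∫ g in (0 : ℝ)..π,
          ‖Pool.Agent.ConeG.Rad.F ν N a T g‖ ^ 4 * Real.sin g ^ (4 * ν - 2))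
          - ∫ g in (0 : ℝ)..π, Real.sin g ^ (4 * ν - 2)))) :=
  near (by linarith) hN ha (Star.star_nonneg hν hm hA hK) (Star.star_sin hν hm hA hK)

end Pool.Agent.ConeRadial
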