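import Pool.Agent.Work.MP_b0b133_an.R5.Tail

/-!
# Pointwise inequality, `ε > 0`, `u ≤ 1`
-/

set_option autoImplicit false
open Real Set

namespace Pool.Agent.ConeG.Star

/-- the coefficient `κ` -/
noncomputable def ka (ε w : ℝ) : ℝ :=
  (exp (ε * (2 * log w)) - 1) / ε - exp (ε * (2 * log w)) - 1 + exp (ε * (2 * log w)) * kk w

/-- the coefficient `β` -/
noncomputable def be (ε w : ℝ) : ℝ := exp (ε * (2 * log w)) * (1 / w ^ 2)

lemma kk_nonneg {w : ℝ} (hw : 1 ≤ w) : 0 ≤ kk w := by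
  have hw0 : 0 < w := by linarith
  have : kk w = (49 / 20 * w - 2 / 5) / w ^ 2 := by unfold kk; field_simp
  rw [this]
  exact div_nonneg (by linarith) (by positivity)

lemma one_le_kk {w : ℝ} (hw : 1 ≤ w) (hw2 : w ≤ 11 / 5) : 1 ≤ kk w := by
  have hw0 : 0 < w := by linarith
  have : kk w = (49 / 20 * w - 2 / 5) / w ^ 2 := by unfold kk; field_simp
  rw [this, le_div_iff₀ (by positivity)]
  nlinarith

lemma exp_quad {x : ℝ} (hx : x ≤ 0) : exp x ≤ 1 + x + x ^ 2 / 2 := by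
  have h1 := Real.quadratic_le_exp_of_nonneg (show 0 ≤ -x by linarith)
  have h2 : exp x * exp (-x) = 1 := by rw [← Real.exp_add]; simp
  have h3 : 0 < exp x := Real.exp_pos x
  have h4 : exp x * (1 + -x + (-x) ^ 2 / 2) ≤ exp x * exp (-x) :=
    mul_le_mul_of_nonneg_left h1 h3.le
  rw [h2] at h4
  have h5 : 0 < 1 + -x + (-x) ^ 2 / 2 := by nlinarith [sq_nonneg x]
  have h6 : exp x ≤ 1 / (1 + -x + (-x) ^ 2 / 2) := by
    rw [le_div_iff₀ h5]; exact h4
  refine h6.trans ?_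
  rw [div_le_iff₀ h5]
  nlinarith [sq_nonneg (x ^ 2)]

lemma sqrt_bound {u : ℝ} (hu : 0 < u) (hu1 : u ≤ 1) : u * log u ^ 2 / 2 ≤ √u * AA u := by
  -- with `u = e^{-2g}`
  obtain ⟨g, hg⟩ : ∃ g : ℝ, g = -log u / 2 := ⟨_, rfl⟩
  have hg0 : 0 ≤ g := by
    have := Real.log_nonpos hu.le hu1
    rw [hg]; linarith
  have hlog : log u = -(2 * g) := by rw [hg]; ring
  have hsq : √u = exp (-g) := by
    rw [Real.sqrt_eq_iff_mul_self_eq hu.le (Real.exp_pos _).le, ← Real.exp_add,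
      show -g + -g = log u by rw [hlog]; ring, Real.exp_log hu]
  have hu2 : u = exp (-g) ^ 2 := by rw [← hsq, Real.sq_sqrt hu.le]
  set f : ℝ → ℝ := fun t => 2 * t * exp t - exp t + exp (-t) - 2 * t ^ 2 with hf
  have hder : ∀ t : ℝ, HasDerivAt f (2 * t * exp t + exp t - exp (-t) - 4 * t) t := by
    intro t
    have h1 : HasDerivAt (fun t : ℝ => 2 * t) (2 * 1) t := (hasDerivAt_id t).const_mul 2
    have h2 := Real.hasDerivAt_exp t
    have h3 : HasDerivAt (fun t : ℝ => exp (-t)) (exp (-t) * (-1)) t :=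
      (hasDerivAt_neg t).exp
    have h4 : HasDerivAt (fun t : ℝ => 2 * t ^ 2) (2 * (2 * t ^ 1 * 1)) t :=
      ((hasDerivAt_id t).pow 2).const_mul 2
    have := (((h1.mul h2).sub h2).add h3).sub h4
    refine this.congr_deriv ?_
    ring
  have hmono : MonotoneOn f (Icc 0 g) := by
    refine monotoneOn_of_deriv_nonneg (convex_Icc _ _)
      (fun x _ => (hder x).continuousAt.continuousWithinAt)
      (fun x _ => (hder x).differentiableAt.differentiableWithinAt) ?_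
    intro x hx
    rw [interior_Icc] at hx
    rw [(hder x).deriv]
    have h1 := Real.add_one_le_exp x
    have h2 : 2 * x ≤ exp x - exp (-x) := by
      have := Real.self_le_sinh_iff.2 hx.1.le
      rw [Real.sinh_eq] at this
      linarith
    nlinarith [hx.1]
  have h0 : f 0 = 0 := by simp [hf]
  have h1 := hmono (left_mem_Icc.2 hg0) (right_mem_Icc.2 hg0) hg0
  rw [h0] at h1
  simp only [hf] at h1
  have h2 : exp (-g) * exp g = 1 := by rw [← Real.exp_add]; simp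
  have h3 : 0 < exp (-g) := Real.exp_pos _
  unfold AA
  rw [hsq, hlog]
  have h4 := mul_le_mul_of_nonneg_left h1 h3.le
  have h5 : exp (-g) * (2 * g * exp g - exp g + exp (-g) - 2 * g ^ 2)
      = 2 * g - 1 + exp (-g) ^ 2 - 2 * g ^ 2 * exp (-g) := by
    linear_combination (2 * g - 1) * h2
  rw [h5] at h4
  have h6 : u * (-(2 * g)) ^ 2 / 2 = exp (-g) * (2 * g ^ 2 * exp (-g)) := by
    rw [hu2]; ring
  have h7 : exp (-g) * (u - 1 - -(2 * g)) = exp (-g) * (exp (-g) ^ 2 - 1 + 2 * g) := by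
    rw [hu2]; ring
  rw [h6, h7]
  refine mul_le_mul_of_nonneg_left ?_ h3.le
  linarith

lemma ka_lower {ε M k : ℝ} (hε : 0 < ε) (hε1 : ε ≤ 1) (hM : 0 ≤ M) (hk : 0 ≤ k) :
    (M + k - 2) + ε * (M ^ 2 / 2 + (k - 1) * M) + ε ^ 2 * ((k - 1) * M ^ 2 / 2)
      ≤ (exp (ε * M) - 1) / ε - exp (ε * M) - 1 + exp (ε * M) * k := by
  have h1 := Real.quadratic_le_exp_of_nonneg (show 0 ≤ ε * M by positivity)
  have h2 : (exp (ε * M) - 1) / ε - exp (ε * M) - 1 + exp (ε * M) * k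
      = (exp (ε * M) - 1) * (1 / ε + k - 1) + k - 2 := by
    field_simp; ring
  have h3 : 0 ≤ 1 / ε + k - 1 := by
    have : 1 ≤ 1 / ε := by rw [le_div_iff₀ hε]; linarith
    linarith
  have h4 : (ε * M + (ε * M) ^ 2 / 2) * (1 / ε + k - 1) ≤ (exp (ε * M) - 1) * (1 / ε + k - 1) :=
    mul_le_mul_of_nonneg_right (by linarith) h3
  have h5 : (ε * M + (ε * M) ^ 2 / 2) * (1 / ε + k - 1)
      = M + ε * (M ^ 2 / 2 + (k - 1) * M) + ε ^ 2 * ((k - 1) * M ^ 2 / 2) := by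
    field_simp; ring
  rw [h2]; linarith

lemma le_two_log {w : ℝ} (hw : 1 ≤ w) : 4 * (w - 1) / (w + 1) ≤ 2 * log w := by
  have := Real.le_log_one_add_of_nonneg (show 0 ≤ w - 1 by linarith)
  have h2 : 1 + (w - 1) = w := by ring
  have h3 : w - 1 + 2 = w + 1 := by ring
  rw [h2, h3] at this
  have h4 : 4 * (w - 1) / (w + 1) = 2 * (2 * (w - 1) / (w + 1)) := by ring
  rw [h4]; linarith

lemma neg_poly1 {w k b m : ℝ} (hw : 1 ≤ w) (hw2 : w ≤ 11 / 5) (hk : k = kk w)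
    (hb : b = 1 / w ^ 2) (hm : m = 4 * (w - 1) / (w + 1)) :
    1 / 20 + 9 / 25 * (w - 1) ≤ m + k - 2 + 2 / 5 * (m ^ 2 / 2 + (k - 1) * m)
      - 2 / 3 * (1 - b * (1 + 2 / 5 * m)) := by
  have hw0 : 0 < w := by linarith
  have hw1 : 0 < w + 1 := by linarith
  have hk' : k = (49 / 20 * w - 2 / 5) / w ^ 2 := by rw [hk]; unfold kk; field_simp
  rw [← sub_nonneg]
  have e : m + k - 2 + 2 / 5 * (m ^ 2 / 2 + (k - 1) * m)
      - 2 / 3 * (1 - b * (1 + 2 / 5 * m)) - (1 / 20 + 9 / 25 * (w - 1))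
      = ((w - 1) * (3 / 25 + 4 / 15 * (w - 1) + 139 / 100 * (w - 1) ^ 2
        + 217 / 300 * (w - 1) ^ 3 - 9 / 25 * (w - 1) ^ 4)) / (w ^ 2 * (w + 1) ^ 2) := by
    rw [hk', hb, hm]
    field_simp
    ring
  rw [e]
  refine div_nonneg (mul_nonneg (by linarith) ?_) (by positivity)
  have h1 : 0 ≤ w - 1 := by linarith
  have h2 : w - 1 ≤ 6 / 5 := by linarith
  have h3 : 0 ≤ (w - 1) ^ 3 * (6 / 5 - (w - 1)) := mul_nonneg (by positivity) (by linarith)
  have h4 : 0 ≤ (w - 1) ^ 3 := by positivity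
  nlinarith [sq_nonneg (w - 1)]

lemma neg_poly2 {w b m : ℝ} (hw : 1 ≤ w) (hw2 : w ≤ 11 / 5)
    (hb : b = 1 / w ^ 2) (hm : m = 4 * (w - 1) / (w + 1)) :
    1 / 25 ≤ (1 / 20 + 9 / 25 * (w - 1)) * (4 / 3 * (b * (1 + 2 / 5 * m)) - 1 / 3) := by
  have hw0 : 0 < w := by linarith
  have hw1 : 0 < w + 1 := by linarith
  rw [← sub_nonneg]
  obtain ⟨x, hx⟩ : ∃ x : ℝ, w = x + 1 := ⟨w - 1, by ring⟩
  have hx0 : 0 ≤ x := by linarith
  have hx1 : x ≤ 6 / 5 := by linarith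
  have e : (1 / 20 + 9 / 25 * (w - 1)) * (4 / 3 * (b * (1 + 2 / 5 * m)) - 1 / 3) - 1 / 25
      = (1 / 50 + 61 / 100 * x + 158 / 375 * x ^ 2 - 161 / 300 * x ^ 3 - 3 / 25 * x ^ 4)
        / (w ^ 2 * (w + 1)) := by
    rw [hb, hm, hx]
    have h1 : x + 1 ≠ 0 := by linarith
    have h2 : x + 1 + 1 ≠ 0 := by linarith
    field_simp
    ring
  rw [e]
  refine div_nonneg ?_ (by positivity)
  have h3 : 0 ≤ x ^ 3 * (6 / 5 - x) := mul_nonneg (by positivity) (by linarith)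
  have h4 : 0 ≤ x ^ 2 * (6 / 5 - x) := mul_nonneg (by positivity) (by linarith)
  have h5 : 0 ≤ x * (6 / 5 - x) := mul_nonneg (by positivity) (by linarith)
  nlinarith

/-- `1 ≤ w ≤ 11/5`, `ε = 2/5` -/
lemma neg_at {w u : ℝ} (hw : 1 ≤ w) (hw2 : w ≤ 11 / 5) (hu : 0 < u) (hu1 : u ≤ 1) :
    0 ≤ kz w * AA u + 1 / w ^ 2 * (u - 1) ^ 2 - BB u
      + 2 / 5 * (((2 * log w) ^ 2 / 2 + (kk w - 1) * (2 * log w)) * AA u
        + 2 * log w * (1 / w ^ 2) * (u - 1) ^ 2 - √u * AA u) := by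
  have hw0 : 0 < w := by linarith
  have hA := AA_nonneg hu
  have hB := BB_le hu hu1
  have hS := BB_add (u := u)
  have hm1 := le_two_log hw
  have hk1 := one_le_kk hw hw2
  obtain ⟨m, hm⟩ : ∃ m : ℝ, m = 4 * (w - 1) / (w + 1) := ⟨_, rfl⟩
  obtain ⟨b, hb⟩ : ∃ b : ℝ, b = 1 / w ^ 2 := ⟨_, rfl⟩
  obtain ⟨M, hM⟩ : ∃ M : ℝ, M = 2 * log w := ⟨_, rfl⟩
  obtain ⟨k, hk⟩ : ∃ k : ℝ, k = kk w := ⟨_, rfl⟩
  obtain ⟨s, hs⟩ : ∃ s : ℝ, s = √u := ⟨_, rfl⟩
  have hp1 := neg_poly1 hw hw2 hk hb hm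
  have hp2 := neg_poly2 hw hw2 hb hm
  have hm0 : 0 ≤ m := by rw [hm]; exact div_nonneg (by linarith) (by linarith)
  have hb0 : 0 < b := by rw [hb]; positivity
  have hs0 : 0 ≤ s := by rw [hs]; exact Real.sqrt_nonneg u
  have hs2 : s ^ 2 = u := by rw [hs]; exact Real.sq_sqrt hu.le
  have hkz : kz w = M + k - 2 := by rw [hM, hk]; unfold kz; ring
  rw [← hm, ← hM] at hm1
  rw [← hk] at hk1
  rw [hkz, ← hM, ← hk, ← hb, ← hs]
  have hbM : b * (1 + M) ≤ 1 := by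
    have h1 : 1 + M ≤ exp M := by linarith [Real.add_one_le_exp M]
    have h2 : exp M = w ^ 2 := by
      rw [hM, show 2 * log w = log (w ^ 2) by rw [Real.log_pow]; norm_num,
        Real.exp_log (by positivity)]
    rw [hb, one_div, inv_mul_le_iff₀ (by positivity), ← h2]
    linarith
  have hM0 : 0 ≤ M := hm0.trans hm1
  have hc : b * (1 + 2 / 5 * M) ≤ 1 := by nlinarith
  have h1 : (1 - b * (1 + 2 / 5 * M)) * BB u ≤ (1 - b * (1 + 2 / 5 * M)) * ((u + 2) / 3 * AA u) :=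
    mul_le_mul_of_nonneg_left hB (by linarith)
  have e : (M + k - 2) * AA u + b * (u - 1) ^ 2 - BB u
      + 2 / 5 * ((M ^ 2 / 2 + (k - 1) * M) * AA u + M * b * (u - 1) ^ 2 - s * AA u)
      = (M + k - 2 + 2 / 5 * (M ^ 2 / 2 + (k - 1) * M) + b * (1 + 2 / 5 * M) * u
        - 2 / 5 * s) * AA u - (1 - b * (1 + 2 / 5 * M)) * BB u := by
    rw [← hS]; ring
  rw [e]
  have h2 : 0 ≤ (M + k - 2 + 2 / 5 * (M ^ 2 / 2 + (k - 1) * M) + b * (1 + 2 / 5 * M) * u
        - 2 / 5 * s - (1 - b * (1 + 2 / 5 * M)) * ((u + 2) / 3)) * AA u := by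
    refine mul_nonneg ?_ hA
    -- monotone in `M`
    have h3 : 0 ≤ (M - m) * (1 + 2 / 5 * (k - 1)) := mul_nonneg (by linarith) (by linarith)
    have h4 : m ^ 2 ≤ M ^ 2 := pow_le_pow_left₀ hm0 hm1 2
    have h5 : 0 ≤ (M - m) * (2 / 5 * b * (u + 2 / 3 + u / 3)) :=
      mul_nonneg (by linarith) (by positivity)
    have h6 : 0 ≤ 1 / 20 + 9 / 25 * (w - 1)
        + (4 / 3 * (b * (1 + 2 / 5 * m)) - 1 / 3) * s ^ 2 - 2 / 5 * s := by
      obtain ⟨c0, hc0⟩ : ∃ c : ℝ, c = 1 / 20 + 9 / 25 * (w - 1) := ⟨_, rfl⟩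
      obtain ⟨c2, hc2⟩ : ∃ c : ℝ, c = 4 / 3 * (b * (1 + 2 / 5 * m)) - 1 / 3 := ⟨_, rfl⟩
      rw [← hc0, ← hc2] at hp2 ⊢
      have hc0' : 0 < c0 := by rw [hc0]; linarith
      have hc2' : 0 < c2 := by
        by_contra hcon
        push Not at hcon
        nlinarith
      have : 0 ≤ c2 * (c0 + c2 * s ^ 2 - 2 / 5 * s) := by
        nlinarith [sq_nonneg (c2 * s - 1 / 5)]
      exact nonneg_of_mul_nonneg_right this hc2'
    rw [hs2] at h6
    nlinarith
  linarith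

/-- `w ≥ 11/5` -/
lemma neg_large {ε w : ℝ} (hε : 0 < ε) (hε1 : ε ≤ 2 / 5) (hw : 11 / 5 ≤ w) :
    1 ≤ (2 * log w) ^ 2 / 2 + (kk w - 1) * (2 * log w) + ε * ((kk w - 1) * (2 * log w) ^ 2 / 2) := by
  have hw0 : 0 < w := by linarith
  have hk0 := kk_nonneg (show 1 ≤ w by linarith)
  obtain ⟨M, hM⟩ : ∃ M : ℝ, M = 2 * log w := ⟨_, rfl⟩
  obtain ⟨k, hk⟩ : ∃ k : ℝ, k = kk w := ⟨_, rfl⟩
  rw [← hM, ← hk]
  rw [← hk] at hk0
  have hM1 : 3 / 2 ≤ M := by
    have h1 := le_two_log (show 1 ≤ w by linarith)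
    rw [← hM] at h1
    refine le_trans ?_ h1
    rw [le_div_iff₀ (by linarith)]
    linarith
  have hkl : 1.49 - 0.35 * M ≤ k := by
    have h1 : 1 / w = exp (-M / 2) := by
      rw [hM, show -(2 * log w) / 2 = - log w by ring, Real.exp_neg, Real.exp_log hw0, one_div]
    have h2 : exp (-M / 2) = exp (-(5 / 4)) * exp (5 / 4 - M / 2) := by
      rw [← Real.exp_add]; congr 1; ring
    have h3 := Real.add_one_le_exp (5 / 4 - M / 2)
    have h4 : (0.2865 : ℝ) ≤ exp (-(5 / 4)) := by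
      rw [Real.exp_neg, le_inv_comm₀ (by norm_num) (Real.exp_pos _)]
      have h5 : exp (5 / 4 : ℝ) = exp (5 / 8) ^ 2 := by
        rw [← Real.exp_nat_mul]; norm_num
      have h6 := Real.exp_bound' (show (0 : ℝ) ≤ 5 / 8 by norm_num) (by norm_num) (n := 8)
        (by norm_num)
      have h7 : exp (5 / 8 : ℝ) ^ 2 ≤ 1.86826 ^ 2 := by
        refine pow_le_pow_left₀ (Real.exp_pos _).le (h6.trans ?_) 2
        norm_num [Finset.sum_range_succ, Nat.factorial]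
      rw [h5]
      refine h7.trans ?_
      norm_num
    have h5 : 49 / 20 / w - 2 / 5 * (25 / 121) ≤ k := by
      rw [hk]; unfold kk
      have : 2 / 5 / w ^ 2 ≤ 2 / 5 * (25 / 121) := by
        rw [div_le_iff₀ (by positivity)]
        nlinarith
      linarith
    have h6 : 49 / 20 / w = 49 / 20 * (1 / w) := by ring
    rw [h6, h1, h2] at h5
    rcases le_total (5 / 4 - M / 2 + 1) 0 with h7 | h7
    · have h8 : (1.49 : ℝ) - 0.35 * M ≤ 0 := by norm_num; linarith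
      linarith
    · have h8 : 0.2865 * (5 / 4 - M / 2 + 1) ≤ exp (-(5 / 4)) * exp (5 / 4 - M / 2) :=
        mul_le_mul h4 h3 h7 (Real.exp_pos _).le
      norm_num at h8 h5 ⊢
      linarith
  rcases le_total 1 k with h | h
  · have h1 : 0 ≤ (k - 1) * M := mul_nonneg (by linarith) (by linarith)
    have h2 : 0 ≤ ε * ((k - 1) * M ^ 2 / 2) :=
      mul_nonneg hε.le (div_nonneg (mul_nonneg (by linarith) (sq_nonneg M)) (by norm_num))
    nlinarith
  · have h1 : 2 / 5 * ((k - 1) * M ^ 2 / 2) ≤ ε * ((k - 1) * M ^ 2 / 2) := by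
      have : (k - 1) * M ^ 2 / 2 ≤ 0 :=
        div_nonpos_of_nonpos_of_nonneg (mul_nonpos_of_nonpos_of_nonneg (by linarith) (sq_nonneg M))
          (by norm_num)
      nlinarith
    refine le_trans ?_ (add_le_add_right h1 _)
    have h2 : 1 ≤ 3 / 10 * M ^ 2 - M + (1 / 5 * M ^ 2 + M) * k := by
      rcases le_total M (21 / 5) with h3 | h3
      · have h4 : (1 / 5 * M ^ 2 + M) * (1.49 - 0.35 * M) ≤ (1 / 5 * M ^ 2 + M) * k :=
          mul_le_mul_of_nonneg_left hkl (by positivity)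
        refine le_trans ?_ (add_le_add_right h4 _)
        have h5 : 0 ≤ (M - 3 / 2) * (21 / 5 - M) := mul_nonneg (by linarith) (by linarith)
        have h6 : 0 ≤ M * ((M - 3 / 2) * (21 / 5 - M)) := mul_nonneg (by linarith) h5
        nlinarith
      · have h4 : 0 ≤ (1 / 5 * M ^ 2 + M) * k := by positivity
        nlinarith
    nlinarith

/-- the inequality for `u ≤ 1` -/
theorem star_neg {ε w u : ℝ} (hε : 0 < ε) (hε1 : ε ≤ 2 / 5) (hw : 1 ≤ w) (hu : 0 < u)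
    (hu1 : u ≤ 1) : u * ((exp (ε * log u) - 1) / ε)
      ≤ (1 + ka ε w) * (u - 1) + be ε w * (u - 1) ^ 2 - ka ε w * log u := by
  have hw0 : 0 < w := by linarith
  have hA := AA_nonneg hu
  have hM0 : 0 ≤ 2 * log w := mul_nonneg (by norm_num) (Real.log_nonneg hw)
  have hk0 := kk_nonneg hw
  have hlu : log u ≤ 0 := Real.log_nonpos hu.le hu1
  have h1 : (exp (ε * log u) - 1) / ε ≤ log u + ε * log u ^ 2 / 2 := by
    have := exp_quad (show ε * log u ≤ 0 from mul_nonpos_of_nonneg_of_nonpos hε.le hlu)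
    rw [div_le_iff₀ hε]
    nlinarith
  have h2 := mul_le_mul_of_nonneg_left h1 hu.le
  have h3 := sqrt_bound hu hu1
  have hka := ka_lower hε (by linarith) hM0 hk0
  have hbe : (1 + ε * (2 * log w)) * (1 / w ^ 2) ≤ be ε w := by
    unfold be
    refine mul_le_mul_of_nonneg_right ?_ (by positivity)
    linarith [Real.add_one_le_exp (ε * (2 * log w))]
  have hka' : (2 * log w + kk w - 2) + ε * ((2 * log w) ^ 2 / 2 + (kk w - 1) * (2 * log w))
      + ε ^ 2 * ((kk w - 1) * (2 * log w) ^ 2 / 2) ≤ ka ε w := hka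
  have h4 := mul_le_mul_of_nonneg_right hka' hA
  have h5 := mul_le_mul_of_nonneg_right hbe (sq_nonneg (u - 1))
  have hz := star_zero hw hu
  have hkz : kz w = 2 * log w + kk w - 2 := by unfold kz; ring
  have hgoal : (1 + ka ε w) * (u - 1) + be ε w * (u - 1) ^ 2 - ka ε w * log u
      = ka ε w * AA u + be ε w * (u - 1) ^ 2 + (u - 1) := by unfold AA; ring
  rw [hgoal]
  have hBB : BB u = u * log u - u + 1 := rfl
  -- it suffices to bound `B + ε √u A`
  have h6 : BB u + ε * (√u * AA u) ≤ ka ε w * AA u + be ε w * (u - 1) ^ 2 := by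
    rcases le_total w (11 / 5) with hw2 | hw2
    · have h7 := neg_at hw hw2 hu hu1
      have hk1 := one_le_kk hw hw2
      have h8 : 0 ≤ ε ^ 2 * ((kk w - 1) * (2 * log w) ^ 2 / 2) * AA u :=
        mul_nonneg (mul_nonneg (sq_nonneg ε) (div_nonneg (mul_nonneg (by linarith)
          (sq_nonneg _)) (by norm_num))) hA
      rw [hkz] at h7 hz
      obtain ⟨X, hX⟩ : ∃ X : ℝ, X = ((2 * log w) ^ 2 / 2 + (kk w - 1) * (2 * log w)) * AA u
        + 2 * log w * (1 / w ^ 2) * (u - 1) ^ 2 - √u * AA u := ⟨_, rfl⟩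
      rw [← hX] at h7
      have h9 : 0 ≤ (2 * log w + kk w - 2) * AA u + 1 / w ^ 2 * (u - 1) ^ 2 - BB u + ε * X := by
        have h10 : 0 ≤ (2 * log w + kk w - 2) * AA u + 1 / w ^ 2 * (u - 1) ^ 2 - BB u := by
          linarith
        rcases le_total 0 X with hX0 | hX0
        · have := mul_nonneg hε.le hX0
          linarith
        · nlinarith
      nlinarith
    · have h7 := neg_large hε hε1 hw2
      have h8 : √u ≤ 1 := by rw [Real.sqrt_le_one]; exact hu1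
      have h9 : ε * (√u * AA u) ≤ ε * (((2 * log w) ^ 2 / 2 + (kk w - 1) * (2 * log w)
          + ε * ((kk w - 1) * (2 * log w) ^ 2 / 2)) * AA u) :=
        mul_le_mul_of_nonneg_left (mul_le_mul_of_nonneg_right (h8.trans h7) hA) hε.le
      have h10 : 0 ≤ ε * (2 * log w) * (1 / w ^ 2) * (u - 1) ^ 2 := by positivity
      rw [hkz] at hz
      nlinarith
  nlinarith

end Pool.Agent.ConeG.Star
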