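import Mathlib

/-!
# Numerical bounds for logarithms
-/

set_option autoImplicit false
open Real

namespace Pool.Agent.ConeG.Star

lemma log_le_of_sum {v r : ℝ} (n : ℕ) (hr : 0 ≤ r) (hv : 0 < v)
    (h : v ≤ ∑ m ∈ Finset.range n, r ^ m / m.factorial) : log v ≤ r := by
  rw [Real.log_le_iff_le_exp hv]
  exact h.trans (Real.sum_le_exp_of_nonneg hr n)

lemma le_log_of_sum {w r : ℝ} (N : ℕ) (hr : 0 ≤ r) (hr1 : r ≤ 1) (hw : 0 < w)
    (h : (∑ m ∈ Finset.range 8, r ^ m / m.factorial + r ^ 8 * (8 + 1) / ((Nat.factorial 8) * 8)) ^ N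
      ≤ w) : N * r ≤ log w := by
  rw [Real.le_log_iff_exp_le hw, Real.exp_nat_mul]
  refine le_trans (pow_le_pow_left₀ (Real.exp_pos _).le ?_ N) h
  have := Real.exp_bound' hr hr1 (n := 8) (by norm_num)
  exact_mod_cast this

lemma log_v1 : log (27 / 10) ≤ 0.99327 := by
  refine log_le_of_sum 12 (by norm_num) (by norm_num) ?_
  norm_num [Finset.sum_range_succ, Nat.factorial]
lemma log_v2 : log (43 / 10) ≤ 1.45863 := by
  refine log_le_of_sum 14 (by norm_num) (by norm_num) ?_
  norm_num [Finset.sum_range_succ, Nat.factorial]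
lemma log_v3 : log 7 ≤ 1.94593 := by
  refine log_le_of_sum 16 (by norm_num) (by norm_num) ?_
  norm_num [Finset.sum_range_succ, Nat.factorial]
lemma log_v4 : log 12 ≤ 2.48495 := by
  refine log_le_of_sum 18 (by norm_num) (by norm_num) ?_
  norm_num [Finset.sum_range_succ, Nat.factorial]
lemma log_v5 : log 21 ≤ 3.0446 := by
  refine log_le_of_sum 20 (by norm_num) (by norm_num) ?_
  norm_num [Finset.sum_range_succ, Nat.factorial]
lemma log_v6 : log 38 ≤ 3.6377 := by
  refine log_le_of_sum 22 (by norm_num) (by norm_num) ?_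
  norm_num [Finset.sum_range_succ, Nat.factorial]
lemma log_v7 : log 72 ≤ 4.2768 := by
  refine log_le_of_sum 24 (by norm_num) (by norm_num) ?_
  norm_num [Finset.sum_range_succ, Nat.factorial]
lemma log_v8 : log 100 ≤ 4.60525 := by
  refine log_le_of_sum 26 (by norm_num) (by norm_num) ?_
  norm_num [Finset.sum_range_succ, Nat.factorial]

lemma log_w0 : (17509/20000 : ℝ) ≤ log (12/5) := by
  have := le_log_of_sum 2 (r := 13679/31250) (by norm_num) (by norm_num) (by norm_num : (0 : ℝ) < 12/5)
    (by norm_num [Finset.sum_range_succ, Nat.factorial])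
  norm_num at this ⊢
  linarith
lemma log_w1 : (89607/100000 : ℝ) ≤ log (49/20) := by
  have := le_log_of_sum 2 (r := 224019/500000) (by norm_num) (by norm_num) (by norm_num : (0 : ℝ) < 49/20)
    (by norm_num [Finset.sum_range_succ, Nat.factorial])
  norm_num at this ⊢
  linarith
lemma log_w2 : (12959/12500 : ℝ) ≤ log (141/50) := by
  have := le_log_of_sum 3 (r := 172787/500000) (by norm_num) (by norm_num) (by norm_num : (0 : ℝ) < 141/50)
    (by norm_num [Finset.sum_range_succ, Nat.factorial])
  norm_num at this ⊢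
  linarith
lemma log_w3 : (119391/100000 : ℝ) ≤ log (33/10) := by
  have := le_log_of_sum 3 (r := 39797/100000) (by norm_num) (by norm_num) (by norm_num : (0 : ℝ) < 33/10)
    (by norm_num [Finset.sum_range_succ, Nat.factorial])
  norm_num at this ⊢
  linarith
lemma log_w4 : (13737/10000 : ℝ) ≤ log (79/20) := by
  have := le_log_of_sum 3 (r := 457901/1000000) (by norm_num) (by norm_num) (by norm_num : (0 : ℝ) < 79/20)
    (by norm_num [Finset.sum_range_succ, Nat.factorial])
  norm_num at this ⊢
  linarith
lemma log_w5 : (158513/100000 : ℝ) ≤ log (122/25) := by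
  have := le_log_of_sum 4 (r := 396283/1000000) (by norm_num) (by norm_num) (by norm_num : (0 : ℝ) < 122/25)
    (by norm_num [Finset.sum_range_succ, Nat.factorial])
  norm_num at this ⊢
  linarith
lemma log_w6 : (11373/6250 : ℝ) ≤ log (617/100) := by
  have := le_log_of_sum 4 (r := 454921/1000000) (by norm_num) (by norm_num) (by norm_num : (0 : ℝ) < 617/100)
    (by norm_num [Finset.sum_range_succ, Nat.factorial])
  norm_num at this ⊢
  linarith
lemma log_w7 : (208317/100000 : ℝ) ≤ log (803/100) := by
  have := le_log_of_sum 5 (r := 208317/500000) (by norm_num) (by norm_num) (by norm_num : (0 : ℝ) < 803/100)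
    (by norm_num [Finset.sum_range_succ, Nat.factorial])
  norm_num at this ⊢
  linarith
lemma log_w8 : (230257/100000 : ℝ) ≤ log (10) := by
  have := le_log_of_sum 5 (r := 230257/500000) (by norm_num) (by norm_num) (by norm_num : (0 : ℝ) < 10)
    (by norm_num [Finset.sum_range_succ, Nat.factorial])
  norm_num at this ⊢
  linarith

end Pool.Agent.ConeG.Star
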