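import Pool.Agent.Work.MP_b0b133_an.R5.Zero

/-!
# Pointwise inequality, `ε = 0`, `w ≥ 12/5`, `u ≥ 1`: the polygon of valid pairs
-/

set_option autoImplicit false
open Real Set

namespace Pool.Agent.ConeG.Star

lemma vx0 {u : ℝ} (hu : 1 ≤ u) : BB u ≤ 7 / 10 * AA u + 25 / 144 * (u - 1) ^ 2 := by
  have h := valid_psi (w := 12 / 5) (κ := 7 / 10) (u := u) (by norm_num) (by norm_num) (by linarith)
  norm_num at h ⊢
  linarith

lemma vx1 {u : ℝ} (hu : 1 ≤ u) : BB u ≤ 321/400 * AA u + 36551/254640 * (u - 1) ^ 2 := by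
  have h := valid_vertex (κ := 321/400) (v := 27/10) (by norm_num) (by norm_num) (by norm_num)
    (by norm_num) (by norm_num) (le_trans log_v1 (by norm_num)) hu
  norm_num at h ⊢
  linarith

lemma vx2 {u : ℝ} (hu : 1 ≤ u) : BB u ≤ 123/125 * AA u + 208234/1953275 * (u - 1) ^ 2 := by
  have h := valid_vertex (κ := 123/125) (v := 43/10) (by norm_num) (by norm_num) (by norm_num)
    (by norm_num) (by norm_num) (le_trans log_v2 (by norm_num)) hu
  norm_num at h ⊢
  linarith

lemma vx3 {u : ℝ} (hu : 1 ≤ u) : BB u ≤ 301/250 * AA u + 49557/650500 * (u - 1) ^ 2 := by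
  have h := valid_vertex (κ := 301/250) (v := 7) (by norm_num) (by norm_num) (by norm_num)
    (by norm_num) (by norm_num) (le_trans log_v3 (by norm_num)) hu
  norm_num at h ⊢
  linarith

lemma vx4 {u : ℝ} (hu : 1 ≤ u) : BB u ≤ 371/250 * AA u + 612359/11976000 * (u - 1) ^ 2 := by
  have h := valid_vertex (κ := 371/250) (v := 12) (by norm_num) (by norm_num) (by norm_num)
    (by norm_num) (by norm_num) (le_trans log_v4 (by norm_num)) hu
  norm_num at h ⊢
  linarith

lemma vx5 {u : ℝ} (hu : 1 ≤ u) : BB u ≤ 227/125 * AA u + 69149/2102625 * (u - 1) ^ 2 := by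
  have h := valid_vertex (κ := 227/125) (v := 21) (by norm_num) (by norm_num) (by norm_num)
    (by norm_num) (by norm_num) (le_trans log_v5 (by norm_num)) hu
  norm_num at h ⊢
  linarith

lemma vx6 {u : ℝ} (hu : 1 ≤ u) : BB u ≤ 553/250 * AA u + 2069191/103132000 * (u - 1) ^ 2 := by
  have h := valid_vertex (κ := 553/250) (v := 38) (by norm_num) (by norm_num) (by norm_num)
    (by norm_num) (by norm_num) (le_trans log_v6 (by norm_num)) hu
  norm_num at h ⊢
  linarith

lemma vx7 {u : ℝ} (hu : 1 ≤ u) : BB u ≤ 671/250 * AA u + 4049759/352656000 * (u - 1) ^ 2 := by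
  have h := valid_vertex (κ := 671/250) (v := 72) (by norm_num) (by norm_num) (by norm_num)
    (by norm_num) (by norm_num) (le_trans log_v7 (by norm_num)) hu
  norm_num at h ⊢
  linarith

lemma vx8 {u : ℝ} (hu : 1 ≤ u) : BB u ≤ 2943/1000 * AA u + 91338751/10688600000 * (u - 1) ^ 2 := by
  have h := valid_vertex (κ := 2943/1000) (v := 100) (by norm_num) (by norm_num) (by norm_num)
    (by norm_num) (by norm_num) (le_trans log_v8 (by norm_num)) hu
  norm_num at h ⊢
  linarith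

lemma st1 {w u : ℝ} (hw : 0 < w) (hu : 1 ≤ u) (h1 : 36551/254640 ≤ 1 / w ^ 2)
    (h2 : 1 / w ^ 2 ≤ 25/144) : BB u ≤ kz w * AA u + 1 / w ^ 2 * (u - 1) ^ 2 := by
  refine valid_interval (p := 64607/50000) (r := 2721/800) (by linarith) (vx0 hu) (vx1 hu) h1 h2
    (by norm_num) (by norm_num) (by norm_num) ?_
  have hT := tangent (w := w) (m := 49/20) (a := 1) hw (by norm_num) (by norm_num)
    (by norm_num) (by norm_num)
  have hl := log_w1
  generalize 1 / w ^ 2 = b at *
  norm_num at hT hl ⊢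
  linarith

lemma st2 {w u : ℝ} (hw : 0 < w) (hu : 1 ≤ u) (h1 : 208234/1953275 ≤ 1 / w ^ 2)
    (h2 : 1 / w ^ 2 ≤ 36551/254640) : BB u ≤ kz w * AA u + 1 / w ^ 2 * (u - 1) ^ 2 := by
  refine valid_interval (p := 2657563/1762500) (r := 48979/10000) (by linarith) (vx1 hu) (vx2 hu) h1 h2
    (by norm_num) (by norm_num) (by norm_num) ?_
  have hT := tangent (w := w) (m := 141/50) (a := 245/282) hw (by norm_num) (by norm_num)
    (by norm_num) (by norm_num)
  have hl := log_w2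
  generalize 1 / w ^ 2 = b at *
  norm_num at hT hl ⊢
  linarith

lemma st3 {w u : ℝ} (hw : 0 < w) (hu : 1 ≤ u) (h1 : 49557/650500 ≤ 1 / w ^ 2)
    (h2 : 1 / w ^ 2 ≤ 208234/1953275) : BB u ≤ kz w * AA u + 1 / w ^ 2 * (u - 1) ^ 2 := by
  refine valid_interval (p := 2902403/1650000) (r := 2899/400) (by linarith) (vx2 hu) (vx3 hu) h1 h2
    (by norm_num) (by norm_num) (by norm_num) ?_
  have hT := tangent (w := w) (m := 33/10) (a := 49/66) hw (by norm_num) (by norm_num)
    (by norm_num) (by norm_num)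
  have hl := log_w3
  generalize 1 / w ^ 2 = b at *
  norm_num at hT hl ⊢
  linarith

lemma st4 {w u : ℝ} (hw : 0 < w) (hu : 1 ≤ u) (h1 : 612359/11976000 ≤ 1 / w ^ 2)
    (h2 : 1 / w ^ 2 ≤ 49557/650500) : BB u ≤ kz w * AA u + 1 / w ^ 2 * (u - 1) ^ 2 := by
  refine valid_interval (p := 812723/395000) (r := 8931/800) (by linarith) (vx3 hu) (vx4 hu) h1 h2
    (by norm_num) (by norm_num) (by norm_num) ?_
  have hT := tangent (w := w) (m := 79/20) (a := 49/79) hw (by norm_num) (by norm_num)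
    (by norm_num) (by norm_num)
  have hl := log_w4
  generalize 1 / w ^ 2 = b at *
  norm_num at hT hl ⊢
  linarith

lemma st5 {w u : ℝ} (hw : 0 < w) (hu : 1 ≤ u) (h1 : 69149/2102625 ≤ 1 / w ^ 2)
    (h2 : 1 / w ^ 2 ≤ 612359/11976000) : BB u ≤ kz w * AA u + 1 / w ^ 2 * (u - 1) ^ 2 := by
  refine valid_interval (p := 3692459/1525000) (r := 45591/2500) (by linarith) (vx4 hu) (vx5 hu) h1 h2
    (by norm_num) (by norm_num) (by norm_num) ?_
  have hT := tangent (w := w) (m := 122/25) (a := 245/488) hw (by norm_num) (by norm_num)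
    (by norm_num) (by norm_num)
  have hl := log_w5
  generalize 1 / w ^ 2 = b at *
  norm_num at hT hl ⊢
  linarith

lemma st6 {w u : ℝ} (hw : 0 < w) (hu : 1 ≤ u) (h1 : 2069191/103132000 ≤ 1 / w ^ 2)
    (h2 : 1 / w ^ 2 ≤ 69149/2102625) : BB u ≤ kz w * AA u + 1 / w ^ 2 * (u - 1) ^ 2 := by
  refine valid_interval (p := 10943657/3856250) (r := 618213/20000) (by linarith) (vx5 hu) (vx6 hu) h1 h2
    (by norm_num) (by norm_num) (by norm_num) ?_
  have hT := tangent (w := w) (m := 617/100) (a := 245/617) hw (by norm_num) (by norm_num)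
    (by norm_num) (by norm_num)
  have hl := log_w6
  generalize 1 / w ^ 2 = b at *
  norm_num at hT hl ⊢
  linarith

lemma st7 {w u : ℝ} (hw : 0 < w) (hu : 1 ≤ u) (h1 : 4049759/352656000 ≤ 1 / w ^ 2)
    (h2 : 1 / w ^ 2 ≤ 2069191/103132000) : BB u ≤ kz w * AA u + 1 / w ^ 2 * (u - 1) ^ 2 := by
  refine valid_interval (p := 133253551/40150000) (r := 1100883/20000) (by linarith) (vx6 hu) (vx7 hu) h1 h2
    (by norm_num) (by norm_num) (by norm_num) ?_
  have hT := tangent (w := w) (m := 803/100) (a := 245/803) hw (by norm_num) (by norm_num)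
    (by norm_num) (by norm_num)
  have hl := log_w7
  generalize 1 / w ^ 2 = b at *
  norm_num at hT hl ⊢
  linarith

lemma st8 {w u : ℝ} (hw : 0 < w) (hu : 1 ≤ u) (h1 : 91338751/10688600000 ≤ 1 / w ^ 2)
    (h2 : 1 / w ^ 2 ≤ 4049759/352656000) : BB u ≤ kz w * AA u + 1 / w ^ 2 * (u - 1) ^ 2 := by
  refine valid_interval (p := 93191/25000) (r := 1763/20) (by linarith) (vx7 hu) (vx8 hu) h1 h2
    (by norm_num) (by norm_num) (by norm_num) ?_
  have hT := tangent (w := w) (m := 10) (a := 49/200) hw (by norm_num) (by norm_num)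
    (by norm_num) (by norm_num)
  have hl := log_w8
  generalize 1 / w ^ 2 = b at *
  norm_num at hT hl ⊢
  linarith

/-- `12/5 ≤ w ≤ 54/5` -/
lemma zero_mid {w u : ℝ} (hw : 12 / 5 ≤ w) (hw2 : w ≤ 54 / 5) (hu : 1 ≤ u) :
    BB u ≤ kz w * AA u + 1 / w ^ 2 * (u - 1) ^ 2 := by
  have hw0 : 0 < w := by linarith
  have hb : 1 / w ^ 2 ≤ 25 / 144 := by
    rw [div_le_div_iff₀ (by positivity) (by norm_num)]
    nlinarith
  have hb0 : 25 / 2916 ≤ 1 / w ^ 2 := by
    rw [div_le_div_iff₀ (by positivity) (by positivity)]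
    nlinarith
  rcases le_total (36551 / 254640) (1 / w ^ 2) with h1 | h1
  · exact st1 hw0 hu h1 hb
  rcases le_total (208234 / 1953275) (1 / w ^ 2) with h2 | h2
  · exact st2 hw0 hu h2 h1
  rcases le_total (49557 / 650500) (1 / w ^ 2) with h3 | h3
  · exact st3 hw0 hu h3 h2
  rcases le_total (612359 / 11976000) (1 / w ^ 2) with h4 | h4
  · exact st4 hw0 hu h4 h3
  rcases le_total (69149 / 2102625) (1 / w ^ 2) with h5 | h5
  · exact st5 hw0 hu h5 h4
  rcases le_total (2069191 / 103132000) (1 / w ^ 2) with h6 | h6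
  · exact st6 hw0 hu h6 h5
  rcases le_total (4049759 / 352656000) (1 / w ^ 2) with h7 | h7
  · exact st7 hw0 hu h7 h6
  · exact st8 hw0 hu (le_trans (by norm_num) hb0) h7

/-- `w ≥ 54/5`, `1 ≤ u ≤ 96` -/
lemma zero_far1 {w u : ℝ} (hw : 54 / 5 ≤ w) (hu : 1 ≤ u) (hu2 : u ≤ 96) :
    BB u ≤ kz w * AA u + 1 / w ^ 2 * (u - 1) ^ 2 := by
  have hw0 : 0 < w := by linarith
  have hu0 : 0 < u := by linarith
  have hA := AA_nonneg hu0
  have h0 := zero_mid (w := 54 / 5) (by norm_num) le_rfl hu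
  have hS : (u - 1) ^ 2 ≤ 998 / 10 * AA u := by
    have h1 := vx8 hu
    have h2 := BB_add (u := u)
    have h3 : u * AA u ≤ 96 * AA u := mul_le_mul_of_nonneg_right hu2 hA
    nlinarith
  refine h0.trans ?_
  obtain ⟨r, hr⟩ : ∃ r : ℝ, r = 54 / 5 / w := ⟨_, rfl⟩
  have hr0 : 0 < r := by rw [hr]; positivity
  have hr1 : r ≤ 1 := by rw [hr, div_le_one hw0]; exact hw
  have hwr : w = 54 / 5 / r := by rw [hr]; field_simp
  have hlog : log (54 / 5) + (1 - r) ≤ log w := by
    have h1 := Real.log_le_sub_one_of_pos hr0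
    have h2 : log w = log (54 / 5) - log r := by
      rw [hwr, Real.log_div (by norm_num) hr0.ne']
    linarith
  have e1 : 1 / w ^ 2 = r ^ 2 * (25 / 2916) := by
    rw [hwr]; field_simp; norm_num
  have e2 : kz w - kz (54 / 5) = 2 * (log w - log (54 / 5)) - 49 / 20 * (5 / 54) * (1 - r)
      + 2 / 5 * (25 / 2916) * (1 - r ^ 2) := by
    unfold kz kk
    rw [hwr]
    field_simp
    ring
  rw [e1]
  have e3 : (1 : ℝ) / (54 / 5) ^ 2 = 25 / 2916 := by norm_num
  rw [e3]
  have h5 : 0 ≤ (1 - r) := by linarith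
  have h6 : 0 ≤ (1 - r) * ((1 - r) * (u - 1) ^ 2) := by positivity
  have h7 : 0 ≤ (1 - r) * (998 / 10 * AA u - (u - 1) ^ 2) := mul_nonneg h5 (by linarith)
  have h8 : 0 ≤ (log w - log (54 / 5) - (1 - r)) * AA u := mul_nonneg (by linarith) hA
  have h9 : 0 ≤ (1 - r ^ 2) * AA u := mul_nonneg (by nlinarith) hA
  have h10 : 0 ≤ (1 - r) * AA u := mul_nonneg h5 hA
  have h11 : kz w * AA u = kz (54 / 5) * AA u + (kz w - kz (54 / 5)) * AA u := by ring
  rw [h11, e2]
  nlinarith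

end Pool.Agent.ConeG.Star
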