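import Pool.Agent.Work.MP_b0b133_an.R5.Neg

/-!
# Pointwise inequality, `ε > 0`, `u ≥ 1`
-/

set_option autoImplicit false
open Real Set

namespace Pool.Agent.ConeG.Star

lemma exp_two {x : ℝ} (hx : 0 ≤ x) : 2 - x ≤ (2 + x) * exp (-x) := by
  rcases le_or_gt 2 x with h | h
  · have : 0 < (2 + x) * exp (-x) := mul_pos (by linarith) (Real.exp_pos _)
    linarith
  · have hd : 0 < 2 - x := by linarith
    have h1 := Real.le_log_one_add_of_nonneg (show 0 ≤ 2 * x / (2 - x) by positivity)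
    have h2 : 1 + 2 * x / (2 - x) = (2 + x) / (2 - x) := by field_simp; ring
    have h3 : 2 * (2 * x / (2 - x)) / (2 * x / (2 - x) + 2) = x := by
      have : 2 * x / (2 - x) + 2 = 4 / (2 - x) := by field_simp; ring
      rw [this]; field_simp; ring
    rw [h2, h3] at h1
    have h4 : exp x ≤ (2 + x) / (2 - x) := by
      rw [← Real.le_log_iff_exp_le (by positivity)]; exact h1
    rw [le_div_iff₀ hd] at h4
    have h5 : exp x * exp (-x) = 1 := by rw [← Real.exp_add]; simp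
    have h6 := mul_le_mul_of_nonneg_right h4 (Real.exp_pos (-x)).le
    have h7 : exp x * (2 - x) * exp (-x) = 2 - x := by
      linear_combination (2 - x) * h5
    linarith

/-- upper bounds for the exponential function by comparison of logarithmic derivatives -/
lemma exp_le_of_deriv {P P' : ℝ → ℝ} {b : ℝ} (hb : 0 ≤ b) (h0 : P 0 = 1)
    (hP : ∀ x, 0 ≤ x → x ≤ b → HasDerivAt P (P' x) x)
    (h : ∀ x, 0 ≤ x → x ≤ b → P x ≤ P' x) : exp b ≤ P b := by
  have hder : ∀ x, 0 ≤ x → x ≤ b → HasDerivAt (fun x => P x * exp (-x))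
      (P' x * exp (-x) + P x * (exp (-x) * (-1))) x :=
    fun x hx hx' => (hP x hx hx').mul ((hasDerivAt_neg x).exp)
  have hmono : MonotoneOn (fun x => P x * exp (-x)) (Icc 0 b) := by
    refine monotoneOn_of_deriv_nonneg (convex_Icc _ _)
      (fun x hx => (hder x hx.1 hx.2).continuousAt.continuousWithinAt)
      (fun x hx => ?_) ?_
    · rw [interior_Icc] at hx
      exact (hder x hx.1.le hx.2.le).differentiableAt.differentiableWithinAt
    · intro x hx
      rw [interior_Icc] at hx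
      rw [(hder x hx.1.le hx.2.le).deriv]
      have := h x hx.1.le hx.2.le
      have h2 := mul_nonneg (sub_nonneg.2 this) (Real.exp_pos (-x)).le
      nlinarith
  have h1 := hmono (left_mem_Icc.2 hb) (right_mem_Icc.2 hb) hb
  simp only [h0, neg_zero, Real.exp_zero, mul_one] at h1
  have h5 : exp (-b) * exp b = 1 := by rw [← Real.exp_add]; simp
  have h6 := mul_le_mul_of_nonneg_right h1 (Real.exp_pos b).le
  have h7 : P b * exp (-b) * exp b = P b := by rw [mul_assoc, h5, mul_one]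
  linarith

lemma exp_le_pade21 {x : ℝ} (hx : 0 ≤ x) (hx1 : x < 3) :
    exp x ≤ 1 + x + 3 * x ^ 2 / (2 * (3 - x)) := by
  refine exp_le_of_deriv (P := fun x => 1 + x + 3 * x ^ 2 / (2 * (3 - x)))
    (P' := fun x => 1 + (3 * (2 * x) * (2 * (3 - x)) - 3 * x ^ 2 * (2 * (0 - 1))) / (2 * (3 - x)) ^ 2)
    hx (by norm_num) ?_ ?_
  · intro y hy hy'
    have hd : 2 * (3 - y) ≠ 0 := by linarith
    have h1 : HasDerivAt (fun x : ℝ => 3 * x ^ 2) (3 * (2 * y)) y := by
      have := ((hasDerivAt_id y).pow 2).const_mul 3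
      refine this.congr_deriv ?_
      simp
    have h2 : HasDerivAt (fun x : ℝ => 2 * (3 - x)) (2 * (0 - 1)) y :=
      (((hasDerivAt_const y (3 : ℝ)).sub (hasDerivAt_id y))).const_mul 2
    have h3 : HasDerivAt (fun x : ℝ => 1 + x) 1 y := (hasDerivAt_id y).const_add 1
    exact h3.add (h1.div h2 hd)
  · intro y hy hy'
    have hd : 0 < 3 - y := by linarith
    rw [← sub_nonneg]
    have e : 1 + (3 * (2 * y) * (2 * (3 - y)) - 3 * y ^ 2 * (2 * (0 - 1))) / (2 * (3 - y)) ^ 2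
        - (1 + y + 3 * y ^ 2 / (2 * (3 - y))) = y ^ 3 / (2 * (3 - y) ^ 2) := by
      field_simp
      ring
    rw [e]
    positivity

lemma exp_le_pade31 {x : ℝ} (hx : 0 ≤ x) (hx1 : x < 4) :
    exp x ≤ (24 + 18 * x + 6 * x ^ 2 + x ^ 3) / (6 * (4 - x)) := by
  refine exp_le_of_deriv (P := fun x => (24 + 18 * x + 6 * x ^ 2 + x ^ 3) / (6 * (4 - x)))
    (P' := fun x => ((18 + 6 * (2 * x) + 3 * x ^ 2) * (6 * (4 - x))
      - (24 + 18 * x + 6 * x ^ 2 + x ^ 3) * (6 * (0 - 1))) / (6 * (4 - x)) ^ 2)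
    hx (by norm_num) ?_ ?_
  · intro y hy hy'
    have hd : 6 * (4 - y) ≠ 0 := by linarith
    have h1 : HasDerivAt (fun x : ℝ => 24 + 18 * x + 6 * x ^ 2 + x ^ 3)
        (18 + 6 * (2 * y) + 3 * y ^ 2) y := by
      have a1 := (hasDerivAt_id y).const_mul 18
      have a2 := ((hasDerivAt_id y).pow 2).const_mul 6
      have a3 := (hasDerivAt_id y).pow 3
      have := ((a1.const_add 24).add a2).add a3
      refine this.congr_deriv ?_
      simp
    have h2 : HasDerivAt (fun x : ℝ => 6 * (4 - x)) (6 * (0 - 1)) y :=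
      (((hasDerivAt_const y (4 : ℝ)).sub (hasDerivAt_id y))).const_mul 6
    exact h1.div h2 hd
  · intro y hy hy'
    have hd : 0 < 4 - y := by linarith
    rw [← sub_nonneg]
    have e : ((18 + 6 * (2 * y) + 3 * y ^ 2) * (6 * (4 - y))
      - (24 + 18 * y + 6 * y ^ 2 + y ^ 3) * (6 * (0 - 1))) / (6 * (4 - y)) ^ 2
        - (24 + 18 * y + 6 * y ^ 2 + y ^ 3) / (6 * (4 - y)) = y ^ 4 / (6 * (4 - y) ^ 2) := by
      field_simp
      ring
    rw [e]
    positivity

/-- `2 A ≤ √u (log u)²` for `0 ≤ log u ≤ 3`, with `log u = 2 h` -/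
lemma two_A_le {h : ℝ} (h0 : 0 ≤ h) (h1 : h ≤ 3 / 2) :
    exp h ^ 2 - 1 - 2 * h ≤ 2 * h ^ 2 * exp h := by
  have hX := exp_le_pade31 h0 (by linarith)
  have hX1 := Real.quadratic_le_exp_of_nonneg h0
  obtain ⟨X, hXd⟩ : ∃ X : ℝ, X = exp h := ⟨_, rfl⟩
  rw [← hXd] at hX hX1 ⊢
  obtain ⟨Z, hZ⟩ : ∃ Z : ℝ, Z = (24 + 18 * h + 6 * h ^ 2 + h ^ 3) / (6 * (4 - h)) := ⟨_, rfl⟩
  rw [← hZ] at hX
  have hd : 0 < 4 - h := by linarith
  have h2 : Z ^ 2 - 1 - 2 * h - 2 * h ^ 2 * Z ≤ 0 := by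
    have e : Z ^ 2 - 1 - 2 * h - 2 * h ^ 2 * Z
        = (h ^ 3 * (-384 + 36 * h ^ 2 + 13 * h ^ 3)) / (6 * (4 - h)) ^ 2 := by
      rw [hZ]; field_simp; ring
    rw [e]
    refine div_nonpos_of_nonpos_of_nonneg (mul_nonpos_of_nonneg_of_nonpos (by positivity) ?_)
      (by positivity)
    have h3 : h ^ 2 ≤ (3 / 2) ^ 2 := pow_le_pow_left₀ h0 h1 2
    have h4 : h ^ 3 ≤ (3 / 2) ^ 3 := pow_le_pow_left₀ h0 h1 3
    norm_num at h3 h4
    linarith
  have h3 : 0 ≤ (Z - X) * (Z + X - 2 * h ^ 2) := by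
    refine mul_nonneg (by linarith) ?_
    have h4 : 0 ≤ h * (3 / 2 - h) := mul_nonneg h0 (by linarith)
    nlinarith
  nlinarith

/-- the reduced inequality -/
lemma pos_core {ε L A q τ : ℝ} (hε : 0 < ε) (hL : 0 < L) (hA : 0 < A) (hAL : A = exp L - 1 - L)
    (hq : q = L ^ 2 / A)
    (h : 1 + ε * q * (2 + ε) / (2 + ε * L) ≤ exp (ε * (q - τ)) * (1 + ε * τ)) :
    exp L * exp (ε * L) - 1 - (1 + ε) * L
      ≤ A * exp (ε * (q + L - τ)) * (1 + ε * τ) := by
  have hx : 0 ≤ ε * L := by positivity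
  have h1 := exp_two hx
  have hd : 0 < 2 + ε * L := by positivity
  have e1 : exp (ε * (q + L - τ)) = exp (ε * (q - τ)) * exp (ε * L) := by
    rw [← Real.exp_add]; congr 1; ring
  have hE := Real.exp_pos (ε * L)
  have hEE : exp (-(ε * L)) * exp (ε * L) = 1 := by rw [← Real.exp_add]; simp
  have h2 : exp L - exp (-(ε * L)) * (1 + L + ε * L) ≤ A * (1 + ε * q * (2 + ε) / (2 + ε * L)) := by
    have h3 : A * (1 + ε * q * (2 + ε) / (2 + ε * L))
        = A + (1 + L) - (2 - ε * L) / (2 + ε * L) * (1 + L + ε * L) := by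
      rw [hq]; field_simp; ring
    rw [h3, hAL]
    have h4 : (2 - ε * L) / (2 + ε * L) ≤ exp (-(ε * L)) := by
      rw [div_le_iff₀ hd]; linarith
    have h5 := mul_le_mul_of_nonneg_right h4 (show 0 ≤ 1 + L + ε * L by positivity)
    linarith
  have h6 := h2.trans (mul_le_mul_of_nonneg_left h hA.le)
  have h7 := mul_le_mul_of_nonneg_right h6 hE.le
  have h8 : (exp L - exp (-(ε * L)) * (1 + L + ε * L)) * exp (ε * L)
      = exp L * exp (ε * L) - 1 - (1 + ε) * L := by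
    linear_combination (-(1 + L + ε * L)) * hEE
  rw [h8] at h7
  rw [e1]
  refine h7.trans (le_of_eq ?_)
  ring

/-- the case `τ ≤ q` -/
lemma pos_case1 {ε L q τ : ℝ} (hε : 0 < ε) (hL : 0 < L) (hτ : 0 ≤ τ) (hτq : τ ≤ q)
    (h : τ ^ 2 ≤ q ^ 2 + 2 * q * (L - 1) / (2 + ε * L)) :
    1 + ε * q * (2 + ε) / (2 + ε * L) ≤ exp (ε * (q - τ)) * (1 + ε * τ) := by
  have hd : 0 < 2 + ε * L := by positivity
  have hY : 0 ≤ ε * (q - τ) := mul_nonneg hε.le (by linarith)
  have h1 := Real.quadratic_le_exp_of_nonneg hY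
  have h2 := mul_le_mul_of_nonneg_right h1 (show 0 ≤ 1 + ε * τ by positivity)
  refine le_trans ?_ h2
  have e : ε * q * (2 + ε) / (2 + ε * L) = ε * q - ε ^ 2 / 2 * (2 * q * (L - 1) / (2 + ε * L)) := by
    field_simp; ring
  rw [e]
  have h3 := mul_le_mul_of_nonneg_left h (show 0 ≤ ε ^ 2 / 2 by positivity)
  have h4 : 0 ≤ (ε * (q - τ)) ^ 2 * (ε * τ) := by positivity
  nlinarith

/-- the case `L ≥ 1` -/
lemma pos_case2 {ε L q τ : ℝ} (hε : 0 < ε) (hL : 0 < L) (hτ : 0 ≤ τ)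
    (h : τ * (τ - q) ≤ q * (L - 1) / (2 + ε * L)) :
    1 + ε * q * (2 + ε) / (2 + ε * L) ≤ exp (ε * (q - τ)) * (1 + ε * τ) := by
  have hd : 0 < 2 + ε * L := by positivity
  have h1 := Real.add_one_le_exp (ε * (q - τ))
  have h2 := mul_le_mul_of_nonneg_right h1 (show 0 ≤ 1 + ε * τ by positivity)
  refine le_trans ?_ h2
  have e : ε * q * (2 + ε) / (2 + ε * L) = ε * q - ε ^ 2 * (q * (L - 1) / (2 + ε * L)) := by
    field_simp; ring
  rw [e]
  have h3 := mul_le_mul_of_nonneg_left h (sq_nonneg ε)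
  nlinarith

/-- the choice of `τ` is small enough -/
lemma pos_tau {ε L A q τ y c : ℝ} (hε : 0 < ε) (hε1 : ε ≤ 2 / 5) (hL : 0 < L)
    (hA : 0 < A) (hAL : A = exp L - 1 - L) (hq : q = L ^ 2 / A) (hτ : 0 < τ)
    (hc : c = 49 / (40 * (1 - ε))) (hy : y = exp L + q + L - 1 - 2 / 5)
    (h : y * τ ^ 2 + c ^ 2 * (1 - 2 * ε) * τ = c ^ 2) :
    1 + ε * q * (2 + ε) / (2 + ε * L) ≤ exp (ε * (q - τ)) * (1 + ε * τ) := by
  have h1ε : 0 < 1 - ε := by linarith
  have hq0 : 0 < q := by rw [hq]; positivity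
  have hqA : q * A = L ^ 2 := by rw [hq]; field_simp
  have hd : 0 < 2 + ε * L := by positivity
  have hc2 : c ^ 2 ≤ 4.1685 := by
    rw [hc, div_pow, div_le_iff₀ (by positivity)]
    nlinarith
  have hc3 : 0.833 ≤ c ^ 2 * (1 - 2 * ε) := by
    have : c ^ 2 * (1 - 2 * ε) = 49 ^ 2 * (1 - 2 * ε) / (40 * (1 - ε)) ^ 2 := by
      rw [hc]; field_simp
    rw [this, le_div_iff₀ (by positivity)]
    nlinarith
  have hu := Real.quadratic_le_exp_of_nonneg hL.le
  have hE := Real.exp_pos L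
  rcases le_total L 1 with hL1 | hL1
  · -- `L ≤ 1`
    have hq1 : 2 - 2 * L / 3 ≤ q := by
      have h1 := exp_le_pade21 hL.le (by linarith)
      rw [hq, le_div_iff₀ hA, hAL]
      have h2 : 0 < 3 - L := by linarith
      have h3 : exp L - 1 - L ≤ 3 * L ^ 2 / (2 * (3 - L)) := by linarith
      have h4 := mul_le_mul_of_nonneg_left h3 (show 0 ≤ 2 - 2 * L / 3 by linarith)
      refine h4.trans (le_of_eq ?_)
      field_simp
    have hq2 : 2 - 2 * L ^ 2 / 9 ≤ q ^ 2 - q * (1 - L) := by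
      nlinarith [mul_nonneg (sub_nonneg.2 hq1) (show (0 : ℝ) ≤ 3 - L / 3 by linarith),
        sq_nonneg (q - (2 - 2 * L / 3))]
    have hτ2 : τ ^ 2 ≤ 2 - 2 * L ^ 2 / 9 := by
      by_contra hcon
      push Not at hcon
      have h1 : 4 / 3 ≤ τ := by
        by_contra hc'
        push Not at hc'
        have : τ ^ 2 ≤ (4 / 3) ^ 2 := pow_le_pow_left₀ hτ.le hc'.le 2
        nlinarith
      have h2 : 1.6 + 4 / 3 * L ≤ y := by
        rw [hy]; norm_num; nlinarith [sq_nonneg L]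
      have h3 : (1.6 + 4 / 3 * L) * (2 - 2 * L ^ 2 / 9) ≤ y * τ ^ 2 :=
        mul_le_mul h2 hcon.le (by nlinarith) (by linarith)
      have h4 : 3.2 ≤ (1.6 + 4 / 3 * L) * (2 - 2 * L ^ 2 / 9) := by
        have h5 : 0 ≤ L * (1 - L) := mul_nonneg hL.le (by linarith)
        have h6 : 0 ≤ L * (L * (1 - L)) := mul_nonneg hL.le h5
        norm_num
        nlinarith
      have h5 : 0.833 * (4 / 3) ≤ c ^ 2 * (1 - 2 * ε) * τ :=
        mul_le_mul hc3 h1 (by norm_num) (by linarith)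
      norm_num at h3 h4 h5 hc2
      linarith
    refine pos_case1 hε hL hτ.le ?_ ?_
    · have h1 : τ ^ 2 ≤ q ^ 2 := by
        have : 0 ≤ q * (1 - L) := mul_nonneg hq0.le (by linarith)
        linarith
      exact (sq_le_sq₀ hτ.le hq0.le).1 h1
    · have h1 : -(q * (1 - L)) ≤ 2 * q * (L - 1) / (2 + ε * L) := by
        rw [le_div_iff₀ hd]
        have : 0 ≤ q * (1 - L) * (ε * L) := by
          have : 0 ≤ 1 - L := by linarith
          positivity
        nlinarith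
      linarith
  rcases le_total L 3 with hL3 | hL3
  · -- `1 ≤ L ≤ 3`
    have hτq : τ ≤ q := by
      by_contra hcon
      push Not at hcon
      have h1 := two_A_le (h := L / 2) (by linarith) (by linarith)
      have hE2 : exp (L / 2) ^ 2 = exp L := by
        rw [← Real.exp_nat_mul]; congr 1; push_cast; ring
      rw [hE2] at h1
      have h2 : 2 * A ≤ L ^ 2 * exp (L / 2) := by rw [hAL]; nlinarith
      have h3 : 2 ≤ q * exp (L / 2) := by
        rw [← hqA] at h2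
        have : 2 * A ≤ (q * exp (L / 2)) * A := by linarith
        exact le_of_mul_le_mul_right this hA
      have h4 : 4 ≤ q ^ 2 * exp L := by
        rw [← hE2]
        have := pow_le_pow_left₀ (by norm_num) h3 2
        nlinarith
      have h5 : 0.44 ≤ q := by
        have h6 : exp (L / 2) ≤ 4.53 := by
          have h7 : exp (L / 2) ≤ exp (3 / 2) := Real.exp_le_exp.2 (by linarith)
          have h8 := exp_le_pade31 (x := 3 / 2) (by norm_num) (by norm_num)
          refine h7.trans (h8.trans ?_)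
          norm_num
        by_contra hc'
        push Not at hc'
        have : q * exp (L / 2) < 0.44 * 4.53 + 0.001 := by
          have := mul_le_mul hc'.le h6 (Real.exp_pos _).le (by norm_num)
          linarith
        norm_num at this
        linarith
      have h6 : exp L ≤ y := by rw [hy]; norm_num at h5 ⊢; linarith
      have h7 : q ^ 2 ≤ τ ^ 2 := pow_le_pow_left₀ hq0.le hcon.le 2
      have h8 : exp L * q ^ 2 ≤ y * τ ^ 2 := mul_le_mul h6 h7 (sq_nonneg q) (by linarith)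
      have h9 : 0.833 * 0.44 ≤ c ^ 2 * (1 - 2 * ε) * τ :=
        mul_le_mul hc3 (h5.trans hcon.le) (by norm_num) (by linarith)
      norm_num at h9 hc2
      nlinarith
    refine pos_case2 hε hL hτ.le ?_
    have h1 : τ * (τ - q) ≤ 0 := mul_nonpos_of_nonneg_of_nonpos hτ.le (by linarith)
    have h2 : 0 ≤ q * (L - 1) / (2 + ε * L) := by
      have : 0 ≤ L - 1 := by linarith
      positivity
    linarith
  · -- `L ≥ 3`
    refine pos_case2 hε hL hτ.le ?_
    have h1 : exp L * τ ^ 2 ≤ 4.1685 := by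
      have h2 : exp L ≤ y := by rw [hy]; norm_num; linarith
      have h3 := mul_le_mul_of_nonneg_right h2 (sq_nonneg τ)
      have h4 : 0 ≤ c ^ 2 * (1 - 2 * ε) * τ := by
        have : 0 ≤ c ^ 2 * (1 - 2 * ε) := by linarith
        positivity
      linarith
    have h2 : L ^ 2 ≤ q * exp L := by
      rw [← hqA]
      refine mul_le_mul_of_nonneg_left ?_ hq0.le
      rw [hAL]; linarith
    have h3 : τ * (τ - q) ≤ τ ^ 2 := by nlinarith [mul_pos hτ hq0]
    refine h3.trans ?_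
    rw [le_div_iff₀ hd]
    have h4 : τ ^ 2 * (2 + ε * L) * exp L ≤ q * (L - 1) * exp L := by
      have h5 : τ ^ 2 * (2 + ε * L) * exp L ≤ 4.1685 * (2 + 2 / 5 * L) := by
        have h6 : 2 + ε * L ≤ 2 + 2 / 5 * L := by nlinarith
        calc τ ^ 2 * (2 + ε * L) * exp L = (exp L * τ ^ 2) * (2 + ε * L) := by ring
          _ ≤ 4.1685 * (2 + 2 / 5 * L) := mul_le_mul h1 h6 hd.le (by norm_num)
      have h6 : L ^ 2 * (L - 1) ≤ q * (L - 1) * exp L := by
        calc L ^ 2 * (L - 1) ≤ (q * exp L) * (L - 1) :=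
              mul_le_mul_of_nonneg_right h2 (by linarith)
          _ = q * (L - 1) * exp L := by ring
      refine h5.trans (le_trans ?_ h6)
      have h7 : 0 ≤ (L - 3) * (L * (L - 3)) := by
        have : 0 ≤ L - 3 := by linarith
        positivity
      norm_num
      nlinarith
    exact le_of_mul_le_mul_right h4 hE

/-- the convex function of `log w` is at least its value at the critical point `t` -/
lemma amgm {ε w t y c : ℝ} (hε : 0 < ε) (hε1 : ε ≤ 2 / 5) (hw : 0 < w) (ht : 0 < t)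
    (hy : 0 ≤ y) (hc : c = 49 / (40 * (1 - ε))) (h : t ^ 2 - c * (1 - 2 * ε) * t = y) :
    exp (ε * (2 * log t)) * (1 + ε * (c / t))
      ≤ exp (ε * (2 * log w)) * ((1 - ε) + ε * (49 / 20) / w + ε * y / w ^ 2) := by
  have h1ε : 0 < 1 - ε := by linarith
  obtain ⟨δ, hδ⟩ : ∃ δ : ℝ, δ = log w - log t := ⟨_, rfl⟩
  have hwt : w = t * exp δ := by
    rw [hδ, Real.exp_sub, Real.exp_log hw, Real.exp_log ht]; field_simp
  have e0 : exp (ε * (2 * log w)) = exp (ε * (2 * log t)) * exp (2 * ε * δ) := by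
    rw [← Real.exp_add]; congr 1; rw [hδ]; ring
  have e1 : exp (2 * ε * δ) / w = exp ((2 * ε - 1) * δ) / t := by
    have : exp ((2 * ε - 1) * δ) * exp δ = exp (2 * ε * δ) := by
      rw [← Real.exp_add]; congr 1; ring
    rw [hwt, ← this]
    field_simp
  have e2 : exp (2 * ε * δ) / w ^ 2 = exp ((2 * ε - 2) * δ) / t ^ 2 := by
    have : exp ((2 * ε - 2) * δ) * exp δ ^ 2 = exp (2 * ε * δ) := by
      rw [← Real.exp_nat_mul, ← Real.exp_add]; congr 1; push_cast; ring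
    rw [hwt, ← this]
    field_simp
  have f0 := Real.add_one_le_exp (2 * ε * δ)
  have f1 := Real.add_one_le_exp ((2 * ε - 1) * δ)
  have f2 := Real.add_one_le_exp ((2 * ε - 2) * δ)
  have g0 := mul_le_mul_of_nonneg_left f0 h1ε.le
  have g1 := mul_le_mul_of_nonneg_left f1 (show 0 ≤ ε * (49 / 20) / t by positivity)
  have g2 := mul_le_mul_of_nonneg_left f2 (show 0 ≤ ε * y / t ^ 2 by positivity)
  rw [e0, mul_assoc]
  refine mul_le_mul_of_nonneg_left ?_ (Real.exp_pos _).le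
  have e3 : exp (2 * ε * δ) * ((1 - ε) + ε * (49 / 20) / w + ε * y / w ^ 2)
      = (1 - ε) * exp (2 * ε * δ) + ε * (49 / 20) * (exp (2 * ε * δ) / w)
        + ε * y * (exp (2 * ε * δ) / w ^ 2) := by ring
  rw [e3, e1, e2]
  have e4 : (1 - ε) * (2 * ε * δ + 1) + ε * (49 / 20) / t * ((2 * ε - 1) * δ + 1)
      + ε * y / t ^ 2 * ((2 * ε - 2) * δ + 1) = 1 + ε * (c / t) := by
    rw [← h, hc]
    field_simp
    ring
  have e5 : ε * (49 / 20) * (exp ((2 * ε - 1) * δ) / t)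
      = ε * (49 / 20) / t * exp ((2 * ε - 1) * δ) := by ring
  have e6 : ε * y * (exp ((2 * ε - 2) * δ) / t ^ 2)
      = ε * y / t ^ 2 * exp ((2 * ε - 2) * δ) := by ring
  rw [e5, e6]
  linarith

/-- the inequality for `u ≥ 1` -/
theorem star_pos {ε w u : ℝ} (hε : 0 < ε) (hε1 : ε ≤ 2 / 5) (hw : 1 ≤ w) (hu : 1 ≤ u) :
    u * ((exp (ε * log u) - 1) / ε)
      ≤ (1 + ka ε w) * (u - 1) + be ε w * (u - 1) ^ 2 - ka ε w * log u := by
  rcases eq_or_lt_of_le hu with rfl | hu1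
  · simp
  have hw0 : 0 < w := by linarith
  have hu0 : 0 < u := by linarith
  have h1ε : 0 < 1 - ε := by linarith
  obtain ⟨L, hLd⟩ : ∃ L : ℝ, L = log u := ⟨_, rfl⟩
  have hL : 0 < L := by rw [hLd]; exact Real.log_pos hu1
  have huL : exp L = u := by rw [hLd]; exact Real.exp_log hu0
  have hA : 0 < AA u := by
    have := Real.log_lt_sub_one_of_pos hu0 hu1.ne'
    unfold AA; linarith
  obtain ⟨A, hAd⟩ : ∃ A : ℝ, A = AA u := ⟨_, rfl⟩
  have hAL : A = exp L - 1 - L := by rw [hAd, huL, hLd]; rfl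
  rw [← hAd] at hA
  obtain ⟨q, hq⟩ : ∃ q : ℝ, q = L ^ 2 / A := ⟨_, rfl⟩
  have hq0 : 0 < q := by rw [hq]; positivity
  have hqA : q * A = L ^ 2 := by rw [hq]; field_simp
  obtain ⟨c, hc⟩ : ∃ c : ℝ, c = 49 / (40 * (1 - ε)) := ⟨_, rfl⟩
  have hc0 : 0 < c := by rw [hc]; positivity
  obtain ⟨y, hy⟩ : ∃ y : ℝ, y = exp L + q + L - 1 - 2 / 5 := ⟨_, rfl⟩
  -- `q + L ≥ 1`, hence `y ≥ 1`
  have hy1 : 1 ≤ y := by
    rcases le_total L 1 with hL1 | hL1
    · have h1 := exp_le_pade21 hL.le (by linarith)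
      have h2 : 2 - 2 * L / 3 ≤ q := by
        rw [hq, le_div_iff₀ hA, hAL]
        have h2 : 0 < 3 - L := by linarith
        have h3 : exp L - 1 - L ≤ 3 * L ^ 2 / (2 * (3 - L)) := by linarith
        have h4 := mul_le_mul_of_nonneg_left h3 (show 0 ≤ 2 - 2 * L / 3 by linarith)
        refine h4.trans (le_of_eq ?_)
        field_simp
      rw [hy, huL]; linarith
    · have := Real.add_one_le_exp L
      rw [hy]; linarith
  obtain ⟨B, hB⟩ : ∃ B : ℝ, B = c * (1 - 2 * ε) := ⟨_, rfl⟩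
  have hB0 : 0 ≤ B := by rw [hB]; exact mul_nonneg hc0.le (by linarith)
  obtain ⟨t, ht⟩ : ∃ t : ℝ, t = (B + √(B ^ 2 + 4 * y)) / 2 := ⟨_, rfl⟩
  have hsq : √(B ^ 2 + 4 * y) ^ 2 = B ^ 2 + 4 * y := Real.sq_sqrt (by positivity)
  have hty : t ^ 2 - B * t = y := by rw [ht]; nlinarith
  have ht1 : 1 ≤ t := by
    have h1 : 2 ≤ √(B ^ 2 + 4 * y) := by
      refine Real.le_sqrt_of_sq_le ?_
      nlinarith [sq_nonneg B]
    rw [ht]; linarith
  have ht0 : 0 < t := by linarith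
  rw [hB] at hty
  obtain ⟨τ, hτ⟩ : ∃ τ : ℝ, τ = c / t := ⟨_, rfl⟩
  have hτ0 : 0 < τ := by rw [hτ]; positivity
  have hg : y * τ ^ 2 + c ^ 2 * (1 - 2 * ε) * τ = c ^ 2 := by
    rw [← hty, hτ]; field_simp; ring
  have h1 := pos_tau hε hε1 hL hA hAL hq hτ0 hc hy hg
  have h2 := pos_core hε hL hA hAL hq h1
  -- the case `ε = 0` at `t`
  have hz := star_zero ht1 hu0
  have hlt : q + L - τ ≤ 2 * log t := by
    have hBB : BB u = (L - 1) * A + L ^ 2 := by rw [BB_eq, ← hLd, ← hAd]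
    have hS : (u - 1) ^ 2 = BB u + u * A := by rw [hAd]; exact BB_add.symm
    rw [hS, hBB, ← hAd, ← hqA] at hz
    have h3 : 0 ≤ (2 * log t - (q + L - τ)) * A := by
      have e : (2 * log t - (q + L - τ)) * A = kz t * A
          + 1 / t ^ 2 * ((L - 1) * A + q * A + u * A) - ((L - 1) * A + q * A) := by
        have hyu : u = t ^ 2 - c * (1 - 2 * ε) * t - q - L + 1 + 2 / 5 := by
          rw [hty, hy, huL]; ring
        have e1 : 1 / t ^ 2 * ((L - 1) * A + q * A + u * A)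
            = (1 + 2 / 5 / t ^ 2 - c * (1 - 2 * ε) / t) * A := by
          rw [hyu]; field_simp; ring
        have e2 : c * (1 - 2 * ε) / t = 49 / 20 / t - c / t := by
          rw [hc]; field_simp; ring
        rw [e1, e2, hτ]
        unfold kz kk
        ring
      rw [e]; linarith
    have h4 := nonneg_of_mul_nonneg_left h3 hA
    linarith
  have h3 : exp (ε * (q + L - τ)) ≤ exp (ε * (2 * log t)) :=
    Real.exp_le_exp.2 (mul_le_mul_of_nonneg_left hlt hε.le)
  have h4 := amgm hε hε1 hw0 ht0 (by linarith) hc hty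
  rw [← hτ] at h4
  have h5 : A * exp (ε * (q + L - τ)) * (1 + ε * τ)
      ≤ A * (exp (ε * (2 * log w)) * ((1 - ε) + ε * (49 / 20) / w + ε * y / w ^ 2)) := by
    have h6 : exp (ε * (q + L - τ)) * (1 + ε * τ) ≤ exp (ε * (2 * log t)) * (1 + ε * τ) :=
      mul_le_mul_of_nonneg_right h3 (by positivity)
    calc A * exp (ε * (q + L - τ)) * (1 + ε * τ)
        = A * (exp (ε * (q + L - τ)) * (1 + ε * τ)) := by ring
      _ ≤ _ := mul_le_mul_of_nonneg_left (h6.trans h4) hA.le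
  have h6 := h2.trans h5
  -- the right hand side
  have hS : (u - 1) ^ 2 = ((L - 1) * A + L ^ 2) + u * A := by
    have hBB : BB u = (L - 1) * A + L ^ 2 := by rw [BB_eq, ← hLd, ← hAd]
    rw [← hBB, hAd]; exact BB_add.symm
  have e1 : A * (exp (ε * (2 * log w)) * ((1 - ε) + ε * (49 / 20) / w + ε * y / w ^ 2))
      = (1 + ε + ε * ka ε w) * A + ε * (be ε w * (u - 1) ^ 2) := by
    rw [hS, hy, huL, ← hqA]
    unfold ka be kk
    field_simp
    ring
  rw [e1, huL] at h6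
  have e2 : u * ((exp (ε * log u) - 1) / ε) = (u * exp (ε * L) - u) / ε := by
    rw [hLd]; ring
  rw [e2, div_le_iff₀ hε]
  have hAu : A = u - 1 - L := by rw [hAL, huL]
  rw [← hLd]
  rw [hAu] at h6
  linarith

/-- the pointwise inequality -/
theorem star {ε w u : ℝ} (hε : 0 < ε) (hε1 : ε ≤ 2 / 5) (hw : 1 ≤ w) (hu : 0 < u) :
    u * ((exp (ε * log u) - 1) / ε)
      ≤ (1 + ka ε w) * (u - 1) + be ε w * (u - 1) ^ 2 - ka ε w * log u := by
  rcases le_total u 1 with h | h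
  · exact star_neg hε hε1 hw hu h
  · exact star_pos hε hε1 hw h

end Pool.Agent.ConeG.Star
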