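import Mathlib

/-!
# Pointwise inequality: valid pairs

`B ≤ κ A + β (u - 1)²`, where `A = u - 1 - log u`, `B = u log u - u + 1`.
-/

set_option autoImplicit false
open Real Set

namespace Pool.Agent.ConeG.Star

/-- `u - 1 - log u` -/
noncomputable def AA (u : ℝ) : ℝ := u - 1 - log u

/-- `u log u - u + 1` -/
noncomputable def BB (u : ℝ) : ℝ := u * log u - u + 1

/-- the quotient form of the inequality for the pair `(κ, β)` -/
noncomputable def FF (κ β u : ℝ) : ℝ :=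
  ((1 + κ) * (u - 1) + β * (u - 1) ^ 2) / (u + κ) - log u

/-- the quadratic which decides the monotonicity of `FF` -/
noncomputable def QQ (κ β u : ℝ) : ℝ := β * u ^ 2 - (1 - β * (2 * κ + 1)) * u + κ ^ 2

lemma AA_nonneg {u : ℝ} (hu : 0 < u) : 0 ≤ AA u := by
  have := Real.log_le_sub_one_of_pos hu
  unfold AA; linarith

lemma BB_add {u : ℝ} : BB u + u * AA u = (u - 1) ^ 2 := by
  unfold AA BB; ring

lemma hasDerivAt_FF {κ β u : ℝ} (hκ : 0 ≤ κ) (hu : 0 < u) :
    HasDerivAt (FF κ β) ((u - 1) * QQ κ β u / (u * (u + κ) ^ 2)) u := by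
  have h1 : u + κ ≠ 0 := by positivity
  have h2 : HasDerivAt (fun x : ℝ => (1 + κ) * (x - 1) + β * (x - 1) ^ 2)
      ((1 + κ) * 1 + β * (2 * (u - 1) ^ 1 * 1)) u := by
    have h3 : HasDerivAt (fun x : ℝ => x - 1) 1 u := (hasDerivAt_id u).sub_const 1
    exact (h3.const_mul (1 + κ)).add ((h3.pow 2).const_mul β)
  have h4 : HasDerivAt (fun x : ℝ => x + κ) 1 u := (hasDerivAt_id u).add_const κ
  have h5 := (h2.div h4 h1).sub (Real.hasDerivAt_log hu.ne')
  refine h5.congr_deriv ?_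
  unfold QQ
  field_simp
  ring

lemma FF_one {κ β : ℝ} : FF κ β 1 = 0 := by
  simp [FF]

lemma continuousOn_FF {κ β : ℝ} (hκ : 0 ≤ κ) : ContinuousOn (FF κ β) (Ioi 0) :=
  fun u hu => (hasDerivAt_FF hκ hu).continuousAt.continuousWithinAt

lemma mono_FF {κ β a b : ℝ} (hκ : 0 ≤ κ) (ha : 1 ≤ a)
    (h : ∀ u, a ≤ u → u ≤ b → 0 ≤ QQ κ β u) : MonotoneOn (FF κ β) (Icc a b) := by
  refine monotoneOn_of_deriv_nonneg (convex_Icc a b)
    ((continuousOn_FF hκ).mono fun u hu => by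
      have := hu.1; simp only [mem_Ioi]; linarith) ?_ ?_
  · intro u hu
    rw [interior_Icc] at hu
    exact (hasDerivAt_FF hκ (by linarith [hu.1])).differentiableAt.differentiableWithinAt
  · intro u hu
    rw [interior_Icc] at hu
    have hu0 : 0 < u := by linarith [hu.1]
    rw [(hasDerivAt_FF hκ hu0).deriv]
    have := h u hu.1.le hu.2.le
    have h1 : 0 ≤ u - 1 := by linarith [hu.1]
    positivity

lemma anti_FF {κ β a b : ℝ} (hκ : 0 ≤ κ) (ha : 1 ≤ a)
    (h : ∀ u, a ≤ u → u ≤ b → QQ κ β u ≤ 0) : AntitoneOn (FF κ β) (Icc a b) := by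
  refine antitoneOn_of_deriv_nonpos (convex_Icc a b)
    ((continuousOn_FF hκ).mono fun u hu => by
      have := hu.1; simp only [mem_Ioi]; linarith) ?_ ?_
  · intro u hu
    rw [interior_Icc] at hu
    exact (hasDerivAt_FF hκ (by linarith [hu.1])).differentiableAt.differentiableWithinAt
  · intro u hu
    rw [interior_Icc] at hu
    have hu0 : 0 < u := by linarith [hu.1]
    rw [(hasDerivAt_FF hκ hu0).deriv]
    have := h u hu.1.le hu.2.le
    have h1 : 0 ≤ u - 1 := by linarith [hu.1]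
    exact div_nonpos_of_nonpos_of_nonneg (mul_nonpos_of_nonneg_of_nonpos h1 this) (by positivity)

lemma anti_FF' {κ β a : ℝ} (hκ : 0 ≤ κ) (ha : 0 < a)
    (h : ∀ u, a ≤ u → u ≤ 1 → 0 ≤ QQ κ β u) : AntitoneOn (FF κ β) (Icc a 1) := by
  refine antitoneOn_of_deriv_nonpos (convex_Icc a 1)
    ((continuousOn_FF hκ).mono fun u hu => by
      have := hu.1; simp only [mem_Ioi]; linarith) ?_ ?_
  · intro u hu
    rw [interior_Icc] at hu
    exact (hasDerivAt_FF hκ (by linarith [hu.1])).differentiableAt.differentiableWithinAt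
  · intro u hu
    rw [interior_Icc] at hu
    have hu0 : 0 < u := by linarith [hu.1]
    rw [(hasDerivAt_FF hκ hu0).deriv]
    have := h u hu.1.le hu.2.le
    have h1 : u - 1 ≤ 0 := by linarith [hu.2]
    exact div_nonpos_of_nonpos_of_nonneg (mul_nonpos_of_nonpos_of_nonneg h1 this) (by positivity)

lemma valid_of_FF {κ β u : ℝ} (hκ : 0 ≤ κ) (hu : 0 < u) (h : 0 ≤ FF κ β u) :
    BB u ≤ κ * AA u + β * (u - 1) ^ 2 := by
  have h1 : 0 < u + κ := by positivity
  unfold FF at h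
  have h2 : log u ≤ ((1 + κ) * (u - 1) + β * (u - 1) ^ 2) / (u + κ) := by linarith
  rw [le_div_iff₀ h1] at h2
  unfold AA BB
  nlinarith

/-- the first criterion: `κ ≥ (w - 1) / 2`, `β = 1 / w²` -/
lemma valid_psi {w κ u : ℝ} (hw : 1 ≤ w) (hκ : (w - 1) / 2 ≤ κ) (hu : 0 < u) :
    BB u ≤ κ * AA u + 1 / w ^ 2 * (u - 1) ^ 2 := by
  have hκ0 : 0 ≤ κ := by linarith
  have hw0 : 0 < w := by linarith
  have hQ : ∀ x, 0 < x → 0 ≤ QQ κ (1 / w ^ 2) x := by
    intro x hx
    have h1 : QQ κ (1 / w ^ 2) x = ((x - κ * w) ^ 2 + x * (w + 1) * (2 * κ + 1 - w)) / w ^ 2 := by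
      unfold QQ; field_simp; ring
    rw [h1]
    have h2 : 0 ≤ 2 * κ + 1 - w := by linarith
    positivity
  refine valid_of_FF hκ0 hu ?_
  rcases le_total u 1 with h | h
  · have := anti_FF' (β := 1 / w ^ 2) hκ0 hu (fun x hx _ => hQ x (by linarith))
      (left_mem_Icc.2 h) (right_mem_Icc.2 h) h
    rwa [FF_one] at this
  · have := mono_FF (β := 1 / w ^ 2) (b := u) hκ0 le_rfl (fun x hx _ => hQ x (by linarith))
      (left_mem_Icc.2 h) (right_mem_Icc.2 h) h
    rwa [FF_one] at this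

/-- the second criterion: `u₂` is the larger root of the quadratic -/
lemma valid_vertex {κ v : ℝ} (hκ : 0 < κ) (hv : 1 < v) (h1 : κ ^ 2 < v)
    (h2 : v - κ ^ 2 ≤ κ ^ 2 * (v + 1 + 2 * κ))
    (h3 : κ ^ 2 * (v + 1 + 2 * κ) ≤ v * (v - κ ^ 2))
    (h4 : log v ≤ (v - 1) * ((2 + κ) * v + κ) / (v * (v + 1 + 2 * κ)))
    {u : ℝ} (hu : 1 ≤ u) :
    BB u ≤ κ * AA u + (v - κ ^ 2) / (v * (v + 1 + 2 * κ)) * (u - 1) ^ 2 := by
  have hv0 : 0 < v := by linarith
  set β := (v - κ ^ 2) / (v * (v + 1 + 2 * κ)) with hβ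
  have hβ0 : 0 < β := by
    rw [hβ]; have : 0 < v - κ ^ 2 := by linarith
    positivity
  set r := κ ^ 2 * (v + 1 + 2 * κ) / (v - κ ^ 2) with hr
  have hd : 0 < v - κ ^ 2 := by linarith
  have hr1 : 1 ≤ r := by rw [hr, le_div_iff₀ hd]; linarith
  have hrv : r ≤ v := by rw [hr, div_le_iff₀ hd]; linarith
  have hQ : ∀ x, QQ κ β x = β * (x - r) * (x - v) := by
    intro x
    unfold QQ
    rw [hβ, hr]
    field_simp
    ring
  have hF : 0 ≤ FF κ β v := by
    have : ((1 + κ) * (v - 1) + β * (v - 1) ^ 2) / (v + κ)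
        = (v - 1) * ((2 + κ) * v + κ) / (v * (v + 1 + 2 * κ)) := by
      rw [hβ]; field_simp; ring
    unfold FF
    rw [this]; linarith
  refine valid_of_FF hκ.le (by linarith) ?_
  rcases le_total u r with h | h
  · have := mono_FF (κ := κ) (β := β) (a := 1) (b := r) hκ.le le_rfl (fun x hx hx' => by
      rw [hQ]
      have h5 : 0 ≤ (r - x) * (v - x) := mul_nonneg (by linarith) (by linarith)
      nlinarith)
      (left_mem_Icc.2 hr1) (⟨hu, h⟩ : u ∈ Icc 1 r) hu
    rwa [FF_one] at this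
  rcases le_total u v with h' | h'
  · have := anti_FF (κ := κ) (β := β) (a := r) (b := v) hκ.le hr1 (fun x hx hx' => by
      rw [hQ]
      have h5 : 0 ≤ (x - r) * (v - x) := mul_nonneg (by linarith) (by linarith)
      nlinarith)
      (⟨h, h'⟩ : u ∈ Icc r v) (right_mem_Icc.2 hrv) h'
    linarith
  · have := mono_FF (κ := κ) (β := β) (a := v) (b := u) hκ.le hv.le (fun x hx hx' => by
      rw [hQ]
      have h5 : 0 ≤ (x - r) * (x - v) := mul_nonneg (by linarith) (by linarith)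
      nlinarith)
      (left_mem_Icc.2 h') (right_mem_Icc.2 h') h'
    linarith

end Pool.Agent.ConeG.Star
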