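import Pool.Agent.Work.MP_b0b133_an.R5.Poly

/-!
# Pointwise inequality, `ε = 0`: the tail, and the complete statement
-/

set_option autoImplicit false
open Real Set

namespace Pool.Agent.ConeG.Star

lemma log_313 : log (313 / 100) ≤ 1.1411 := by
  refine log_le_of_sum 14 (by norm_num) (by norm_num) ?_
  norm_num [Finset.sum_range_succ, Nat.factorial]

/-- `BB = (log u - 1) A + (log u)²` -/
lemma BB_eq {u : ℝ} : BB u = (log u - 1) * AA u + log u ^ 2 := by
  unfold AA BB; ring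

lemma tail_num {u : ℝ} (hu : 96 ≤ u) :
    log u ^ 2 ≤ AA u * (49 / 20 / √u - (49 / 20 / √u) ^ 2 / 4) ∧ 2 ≤ log u := by
  have hu0 : 0 < u := by linarith
  obtain ⟨y, hy⟩ : ∃ y : ℝ, y = √(√u) := ⟨_, rfl⟩
  have hv0 : 0 < √u := Real.sqrt_pos.2 hu0
  have hy0 : 0 < y := by rw [hy]; exact Real.sqrt_pos.2 hv0
  have hv : √u = y ^ 2 := by rw [hy, Real.sq_sqrt hv0.le]
  have hu4 : u = y ^ 4 := by
    have : u = (√u) ^ 2 := (Real.sq_sqrt hu0.le).symm
    rw [this, hv]; ring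
  have hy1 : 313 / 100 ≤ y := by
    by_contra hc
    push Not at hc
    have : y ^ 4 < (313 / 100) ^ 4 := pow_lt_pow_left₀ hc hy0.le (by norm_num)
    rw [← hu4] at this
    norm_num at this
    linarith
  have hlog : log u = 4 * log y := by rw [hu4, Real.log_pow]; norm_num
  have hly : log y ≤ 0.1411 + y / (313 / 100) := by
    have h1 := Real.log_le_sub_one_of_pos (show 0 < y / (313 / 100) by positivity)
    rw [Real.log_div hy0.ne' (by norm_num)] at h1
    have := log_313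
    linarith
  have hly1 : 1 ≤ log y := by
    rw [Real.le_log_iff_exp_le hy0]
    have := Real.exp_one_lt_d9
    linarith
  have hL1 : log u ≤ 0.5644 + 400 / 313 * y := by rw [hlog]; linarith
  have hL0 : 4 ≤ log u := by rw [hlog]; linarith
  refine ⟨?_, by linarith⟩
  have hA : AA u = y ^ 4 - 1 - log u := by unfold AA; rw [← hu4]
  rw [hA, hv]
  generalize log u = L at *
  have e1 : (y ^ 4 - 1 - L) * (49 / 20 / y ^ 2 - (49 / 20 / y ^ 2) ^ 2 / 4)
      = (y ^ 4 - 1 - L) * (49 / 20 * y ^ 2 - (49 / 20) ^ 2 / 4) / y ^ 4 := by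
    field_simp
  rw [e1, le_div_iff₀ (by positivity)]
  have hc : 0 ≤ 49 / 20 * y ^ 2 - (49 / 20) ^ 2 / 4 := by nlinarith
  have h1 : (y ^ 4 - 1 - (0.5644 + 400 / 313 * y)) * (49 / 20 * y ^ 2 - (49 / 20) ^ 2 / 4)
      ≤ (y ^ 4 - 1 - L) * (49 / 20 * y ^ 2 - (49 / 20) ^ 2 / 4) :=
    mul_le_mul_of_nonneg_right (by linarith) hc
  have h2 : L ^ 2 * y ^ 4 ≤ (0.5644 + 400 / 313 * y) ^ 2 * y ^ 4 :=
    mul_le_mul_of_nonneg_right (pow_le_pow_left₀ (by linarith) hL1 2) (by positivity)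
  refine h2.trans (le_trans ?_ h1)
  obtain ⟨z, hz⟩ : ∃ z : ℝ, y = z + 313 / 100 := ⟨y - 313 / 100, by ring⟩
  have hz0 : 0 ≤ z := by linarith
  rw [hz, ← sub_nonneg]
  ring_nf
  positivity

/-- `u ≥ 96` -/
lemma zero_far2 {w u : ℝ} (hw0 : 0 < w) (hu : 96 ≤ u) :
    BB u ≤ kz w * AA u + 1 / w ^ 2 * (u - 1) ^ 2 := by
  have hu0 : 0 < u := by linarith
  have hA := AA_nonneg hu0
  obtain ⟨h1, h2⟩ := tail_num hu
  have hv0 : 0 < √u := Real.sqrt_pos.2 hu0
  have hvv : √u ^ 2 = u := Real.sq_sqrt hu0.le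
  have hB : 2 / 5 * AA u ≤ BB u := by
    rw [BB_eq]; nlinarith [sq_nonneg (log u)]
  have hS := BB_add (u := u)
  obtain ⟨E, hE⟩ : ∃ E : ℝ, E = √u / w := ⟨_, rfl⟩
  have hE0 : 0 < E := by rw [hE]; positivity
  have hlogE : log E ≤ E - 1 := Real.log_le_sub_one_of_pos hE0
  have hlogE' : 2 * log E = log u - 2 * log w := by
    rw [hE, Real.log_div hv0.ne' hw0.ne', Real.log_sqrt hu0.le]; ring
  obtain ⟨g, hg⟩ : ∃ g : ℝ, g = 49 / 20 / √u := ⟨_, rfl⟩
  rw [← hg] at h1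
  have hgE : 49 / 20 / w = g * E := by rw [hg, hE]; field_simp
  have hEE : u * (1 / w ^ 2) = E ^ 2 := by
    rw [hE, div_pow, hvv]; ring
  have hb0 : 0 ≤ 1 / w ^ 2 := by positivity
  have key : kz w * AA u + 1 / w ^ 2 * (u - 1) ^ 2 - BB u
      = AA u * (2 * log w - log u - 1 + g * E + E ^ 2) - log u ^ 2
        + 1 / w ^ 2 * (BB u - 2 / 5 * AA u) := by
    rw [← hS, ← hEE, ← hgE]
    have := BB_eq (u := u)
    unfold kz kk
    linear_combination (-1) * this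
  have h3 : 0 ≤ 1 / w ^ 2 * (BB u - 2 / 5 * AA u) := mul_nonneg hb0 (by linarith)
  have h4 : g - g ^ 2 / 4 ≤ 2 * log w - log u - 1 + g * E + E ^ 2 := by
    nlinarith [sq_nonneg ((1 - E) - g / 2)]
  have h5 := mul_le_mul_of_nonneg_left h4 hA
  linarith

/-- the inequality for `ε = 0` -/
theorem star_zero {w u : ℝ} (hw : 1 ≤ w) (hu : 0 < u) :
    BB u ≤ kz w * AA u + 1 / w ^ 2 * (u - 1) ^ 2 := by
  rcases le_total w (12 / 5) with h | h
  · exact zero_small hw h hu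
  rcases le_total u 1 with h1 | h1
  · exact zero_left h hu h1
  rcases le_total w (54 / 5) with h2 | h2
  · exact zero_mid h h2 h1
  rcases le_total u 96 with h3 | h3
  · exact zero_far1 h2 h1 h3
  · exact zero_far2 (by linarith) h3

end Pool.Agent.ConeG.Star
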