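import Pool.Agent.Work.MP_b0b133_an.R5.Psi
import Pool.Agent.Work.MP_b0b133_an.R5.Num

/-!
# Pointwise inequality, `ε = 0`
-/

set_option autoImplicit false
open Real Set

namespace Pool.Agent.ConeG.Star

/-- `K₁ / w - K₂ / w²` with `(K₁, K₂) = (49/20, 2/5)` -/
noncomputable def kk (w : ℝ) : ℝ := 49 / 20 / w - 2 / 5 / w ^ 2

/-- the coefficient of `A` for `ε = 0` -/
noncomputable def kz (w : ℝ) : ℝ := 2 * log w + kk w - 2

lemma BB_nonneg {u : ℝ} (hu : 0 < u) : 0 ≤ BB u := by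
  have h := Real.log_le_sub_one_of_pos (inv_pos.2 hu)
  rw [Real.log_inv] at h
  unfold BB
  have h2 : u * u⁻¹ = 1 := mul_inv_cancel₀ hu.ne'
  nlinarith

/-- the tangents of the convex function `2 log w + K₁ / w` of `1 / w²` -/
lemma tangent {w m a : ℝ} (hw : 0 < w) (hm : 0 < m) (ha : 49 / 20 = a * m) (ha0 : 0 ≤ a)
    (ha2 : a ≤ 2) :
    2 * log m + a - (2 - a) / 2 * (m ^ 2 * (1 / w ^ 2) - 1) - 2 / 5 * (1 / w ^ 2) - 2 ≤ kz w := by
  have hy : 0 < m / w := by positivity
  have h1 : log (m / w) ≤ m / w - 1 := Real.log_le_sub_one_of_pos hy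
  have h2 : log ((m / w) ^ 2) ≤ (m / w) ^ 2 - 1 := Real.log_le_sub_one_of_pos (by positivity)
  have h2' : 2 * log (m / w) ≤ (m / w) ^ 2 - 1 := by
    rw [Real.log_pow] at h2; exact_mod_cast h2
  have h3 : log (m / w) = log m - log w := Real.log_div hm.ne' hw.ne'
  have h4 : 49 / 20 / w = a * (m / w) := by rw [ha]; ring
  have h5 : m ^ 2 * (1 / w ^ 2) = (m / w) ^ 2 := by field_simp
  unfold kz kk
  rw [h4, h5]
  have h6 : 2 / 5 * (1 / w ^ 2) = 2 / 5 / w ^ 2 := by ring
  rw [h6]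
  have h7 := mul_le_mul_of_nonneg_left h1 ha0
  have h8 := mul_le_mul_of_nonneg_left h2' (by linarith : 0 ≤ (2 - a) / 2)
  rw [h3] at h7 h8
  nlinarith

/-- interpolation between two valid pairs -/
lemma valid_interval {κ₁ β₁ κ₂ β₂ p r β K u : ℝ} (hu : 0 < u)
    (h1 : BB u ≤ κ₁ * AA u + β₁ * (u - 1) ^ 2) (h2 : BB u ≤ κ₂ * AA u + β₂ * (u - 1) ^ 2)
    (hβ : β₂ ≤ β) (hβ' : β ≤ β₁) (hlt : β₂ < β₁) (hT1 : κ₁ ≤ p - r * β₁)
    (hT2 : κ₂ ≤ p - r * β₂) (hK : p - r * β ≤ K) : BB u ≤ K * AA u + β * (u - 1) ^ 2 := by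
  have hd : 0 < β₁ - β₂ := by linarith
  have hA := AA_nonneg hu
  have e1 := mul_le_mul_of_nonneg_left h1 (by linarith : 0 ≤ β - β₂)
  have e2 := mul_le_mul_of_nonneg_left h2 (by linarith : 0 ≤ β₁ - β)
  have e3 := mul_le_mul_of_nonneg_right hT1 hA
  have e4 := mul_le_mul_of_nonneg_right hT2 hA
  have e5 := mul_le_mul_of_nonneg_left e3 (by linarith : 0 ≤ β - β₂)
  have e6 := mul_le_mul_of_nonneg_left e4 (by linarith : 0 ≤ β₁ - β)
  have e7 := mul_le_mul_of_nonneg_left (mul_le_mul_of_nonneg_right hK hA) hd.le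
  have key : (β₁ - β₂) * BB u ≤ (β₁ - β₂) * (K * AA u + β * (u - 1) ^ 2) := by
    nlinarith
  exact le_of_mul_le_mul_left key hd

/-- `w ≤ 12/5` -/
lemma zero_small {w u : ℝ} (hw : 1 ≤ w) (hw2 : w ≤ 12 / 5) (hu : 0 < u) :
    BB u ≤ kz w * AA u + 1 / w ^ 2 * (u - 1) ^ 2 := by
  have hw0 : 0 < w := by linarith
  refine valid_psi hw ?_ hu
  -- the function `kz w - (w - 1) / 2` is antitone
  set g : ℝ → ℝ := fun w => 2 * log w + (49 / 20 / w - 2 / 5 / w ^ 2) - 2 - (w - 1) / 2 with hg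
  have hder : ∀ x : ℝ, 0 < x → HasDerivAt g (-(x ^ 3 - 4 * x ^ 2 + 49 / 10 * x - 8 / 5) / (2 * x ^ 3)) x := by
    intro x hx
    have h1 := (Real.hasDerivAt_log hx.ne').const_mul 2
    have h2 : HasDerivAt (fun x : ℝ => 49 / 20 / x) (-(49 / 20) / x ^ 2) x := by
      have := (hasDerivAt_inv hx.ne').const_mul (49 / 20)
      refine (this.congr_deriv (by field_simp)).congr_of_eventuallyEq ?_
      filter_upwards with y
      simp [div_eq_mul_inv]
    have h3 : HasDerivAt (fun x : ℝ => 2 / 5 / x ^ 2) (-(4 / 5) / x ^ 3) x := by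
      have h := ((hasDerivAt_id x).pow 2).inv (by simpa using pow_ne_zero 2 hx.ne')
      have := h.const_mul (2 / 5)
      refine (this.congr_deriv ?_).congr_of_eventuallyEq ?_
      · simp only [Pi.pow_apply, id_eq]; field_simp; norm_num; try ring
      · filter_upwards with y
        simp [div_eq_mul_inv]
    have h4 : HasDerivAt (fun x : ℝ => (x - 1) / 2) (1 / 2) x :=
      ((hasDerivAt_id x).sub_const 1).div_const 2
    have := ((h1.add (h2.sub h3)).sub_const 2).sub h4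
    refine this.congr_deriv ?_
    field_simp
    ring
  have hanti : AntitoneOn g (Icc 1 (12 / 5)) := by
    refine antitoneOn_of_deriv_nonpos (convex_Icc _ _)
      (fun x hx => (hder x (by linarith [hx.1])).continuousAt.continuousWithinAt) ?_ ?_
    · intro x hx
      rw [interior_Icc] at hx
      exact (hder x (by linarith [hx.1])).differentiableAt.differentiableWithinAt
    · intro x hx
      rw [interior_Icc] at hx
      have hx0 : 0 < x := by linarith [hx.1]
      rw [(hder x hx0).deriv]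
      have h1 : 0 ≤ x ^ 3 - 4 * x ^ 2 + 49 / 10 * x - 8 / 5 := by
        have h2 : 0 ≤ (x - 17 / 10) ^ 2 * (x - 6 / 10) :=
          mul_nonneg (sq_nonneg _) (by linarith [hx.1])
        nlinarith [hx.2]
      exact div_nonpos_of_nonpos_of_nonneg (by linarith) (by positivity)
  have h := hanti (⟨hw, hw2⟩ : w ∈ Icc 1 (12 / 5)) (right_mem_Icc.2 (by norm_num)) hw2
  have h2 : 0 ≤ g (12 / 5) := by
    simp only [hg]
    have := log_w0
    norm_num at this ⊢
    linarith
  have h3 : g w = kz w - (w - 1) / 2 := by simp only [hg, kz, kk]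
  linarith

lemma log_pade {u : ℝ} (hu : 0 < u) (hu1 : u ≤ 1) :
    log u ≤ (u - 1) * (u + 5) / (4 * u + 2) := by
  set h : ℝ → ℝ := fun x => (x - 1) * (x + 5) / (4 * x + 2) - log x with hh
  have hder : ∀ x : ℝ, 0 < x → HasDerivAt h (4 * (x - 1) ^ 3 / (x * (4 * x + 2) ^ 2)) x := by
    intro x hx
    have h0 : (4 * x + 2) ≠ 0 := by positivity
    have h1 : HasDerivAt (fun x : ℝ => (x - 1) * (x + 5)) (1 * (x + 5) + (x - 1) * 1) x :=
      ((hasDerivAt_id x).sub_const 1).mul ((hasDerivAt_id x).add_const 5)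
    have h2 : HasDerivAt (fun x : ℝ => 4 * x + 2) (4 * 1) x :=
      ((hasDerivAt_id x).const_mul 4).add_const 2
    have := (h1.div h2 h0).sub (Real.hasDerivAt_log hx.ne')
    refine this.congr_deriv ?_
    field_simp
    ring
  have hanti : AntitoneOn h (Icc u 1) := by
    refine antitoneOn_of_deriv_nonpos (convex_Icc _ _)
      (fun x hx => (hder x (by linarith [hx.1])).continuousAt.continuousWithinAt) ?_ ?_
    · intro x hx
      rw [interior_Icc] at hx
      exact (hder x (by linarith [hx.1])).differentiableAt.differentiableWithinAt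
    · intro x hx
      rw [interior_Icc] at hx
      have hx0 : 0 < x := by linarith [hx.1]
      rw [(hder x hx0).deriv]
      have h1 : (x - 1) ^ 3 ≤ 0 := by
        have : (x - 1) ^ 3 = (x - 1) * (x - 1) ^ 2 := by ring
        rw [this]
        exact mul_nonpos_of_nonpos_of_nonneg (by linarith [hx.2]) (sq_nonneg _)
      exact div_nonpos_of_nonpos_of_nonneg (by linarith) (by positivity)
  have := hanti (left_mem_Icc.2 hu1) (right_mem_Icc.2 hu1) hu1
  have h1 : h 1 = 0 := by simp [hh]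
  rw [h1] at this
  simp only [hh] at this
  linarith

/-- `B ≤ (u + 2) / 3 A` for `u ≤ 1` -/
lemma BB_le {u : ℝ} (hu : 0 < u) (hu1 : u ≤ 1) : BB u ≤ (u + 2) / 3 * AA u := by
  have h := log_pade hu hu1
  rw [le_div_iff₀ (by positivity)] at h
  unfold AA BB
  nlinarith

/-- `w ≥ 12/5`, `u ≤ 1` -/
lemma zero_left {w u : ℝ} (hw : 12 / 5 ≤ w) (hu : 0 < u) (hu1 : u ≤ 1) :
    BB u ≤ kz w * AA u + 1 / w ^ 2 * (u - 1) ^ 2 := by
  have hw0 : 0 < w := by linarith
  have hb : 1 / w ^ 2 ≤ 25 / 144 := by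
    rw [div_le_div_iff₀ (by positivity) (by norm_num)]
    nlinarith
  have hb0 : 0 ≤ 1 / w ^ 2 := by positivity
  have hT := tangent (w := w) (m := 12 / 5) (a := 49 / 48) hw0 (by norm_num) (by norm_num)
    (by norm_num) (by norm_num)
  have hl := log_w0
  set b := 1 / w ^ 2 with hbdef
  have hk : 1 - 2 * b ≤ kz w := by
    norm_num at hT hl ⊢
    linarith
  have hA := AA_nonneg hu
  have h1 := BB_le hu hu1
  have h2 := BB_add (u := u)
  rw [← h2]
  have h3 : (1 - b) * BB u ≤ (1 - b) * ((u + 2) / 3 * AA u) :=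
    mul_le_mul_of_nonneg_left h1 (by linarith)
  have h4 := mul_le_mul_of_nonneg_right hk hA
  have h5 : 0 ≤ (1 - u) * (1 - 4 * b) * AA u :=
    mul_nonneg (mul_nonneg (by linarith) (by linarith)) hA
  nlinarith

end Pool.Agent.ConeG.Star
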